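import Pool.Agent.K3h23.Tri.Kernel

set_option autoImplicit false

namespace Pool.Agent.K3h23.Tri

open Finset Module

variable {F K : Type*} [Field F] [Field K] [Algebra F K]

/-- The linear map `x ↦ a x + b σ(x) - σ^d(x)`. -/
noncomputable def trinomial (σ : K ≃ₐ[F] K) (d : ℕ) (a b : K) : K →ₗ[F] K :=
  LinearMap.mulLeft F a + (LinearMap.mulLeft F b).comp σ.toLinearMap -
    (σ ^ d : K ≃ₐ[F] K).toLinearMap

lemma trinomial_apply (σ : K ≃ₐ[F] K) (d : ℕ) (a b x : K) :
    trinomial σ d a b x = a * x + b * σ x - (σ ^ d) x := by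
  simp [trinomial]

/-- The coefficients of `T^(k d)` modulo `T^d - b T - a`. -/
noncomputable def cf (σ : K ≃ₐ[F] K) (d : ℕ) (a b : K) : ℕ → ℕ → K
  | 0, 0 => 1
  | 0, _ + 1 => 0
  | k + 1, 0 => (σ ^ d) (cf σ d a b k 0) * a
  | k + 1, j + 1 => (σ ^ d) (cf σ d a b k (j + 1)) * (σ ^ (j + 1)) a +
      (σ ^ d) (cf σ d a b k j) * (σ ^ j) b

lemma cf_zero_of_lt (σ : K ≃ₐ[F] K) (d : ℕ) (a b : K) :
    ∀ k j : ℕ, k < j → cf σ d a b k j = 0 := by
  intro k
  induction k with
  | zero =>
    intro j hj
    obtain ⟨j, rfl⟩ := Nat.exists_eq_succ_of_ne_zero (show j ≠ 0 by omega)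
    rw [Nat.succ_eq_add_one, cf]
  | succ k ih =>
    intro j hj
    obtain ⟨j, rfl⟩ := Nat.exists_eq_succ_of_ne_zero (show j ≠ 0 by omega)
    rw [Nat.succ_eq_add_one, cf, ih (j + 1) (by omega), ih j (by omega), map_zero]
    ring

/-- One step of the reduction. -/
lemma step (σ : K ≃ₐ[F] K) (d : ℕ) (a b : K) (k : ℕ) (y z : ℕ → K)
    (hz : ∀ j, z j = (σ ^ j) a * y j + (σ ^ j) b * y (j + 1)) :
    ∑ j ∈ range (k + 1), (σ ^ d) (cf σ d a b k j) * z j =
      ∑ j ∈ range (k + 2), cf σ d a b (k + 1) j * y j := by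
  rw [sum_range_succ' (fun j => cf σ d a b (k + 1) j * y j)]
  have h1 : ∀ j, cf σ d a b (k + 1) (j + 1) * y (j + 1) =
      (σ ^ d) (cf σ d a b k (j + 1)) * (σ ^ (j + 1)) a * y (j + 1) +
        (σ ^ d) (cf σ d a b k j) * (σ ^ j) b * y (j + 1) := by
    intro j
    rw [cf]; ring
  have h2 : ∀ j, (σ ^ d) (cf σ d a b k j) * z j =
      (σ ^ d) (cf σ d a b k j) * (σ ^ j) a * y j +
        (σ ^ d) (cf σ d a b k j) * (σ ^ j) b * y (j + 1) := by
    intro j
    rw [hz]; ring
  rw [sum_congr rfl (fun j _ => h1 j), sum_congr rfl (fun j _ => h2 j), sum_add_distrib,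
    sum_add_distrib, sum_range_succ' (fun j => (σ ^ d) (cf σ d a b k j) * (σ ^ j) a * y j),
    sum_range_succ (fun j => (σ ^ d) (cf σ d a b k (j + 1)) * (σ ^ (j + 1)) a * y (j + 1)),
    cf_zero_of_lt σ d a b k (k + 1) (Nat.lt_succ_self k), map_zero]
  have h3 : cf σ d a b (k + 1) 0 = (σ ^ d) (cf σ d a b k 0) * a := by rw [cf]
  rw [h3, pow_zero, AlgEquiv.one_apply]
  ring

lemma pow_mul_apply (σ : K ≃ₐ[F] K) (i j : ℕ) (x : K) :
    (σ ^ i) ((σ ^ j) x) = (σ ^ (i + j)) x := by
  rw [pow_add, AlgEquiv.mul_apply]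

lemma pow_add_comm_apply (σ : K ≃ₐ[F] K) (i j : ℕ) (x : K) :
    (σ ^ i) ((σ ^ j) x) = (σ ^ j) ((σ ^ i) x) := by
  rw [pow_mul_apply, pow_mul_apply, add_comm]

lemma reduce_ker (σ : K ≃ₐ[F] K) (d : ℕ) (a b v : K) (hv : (σ ^ d) v = a * v + b * σ v) :
    ∀ k : ℕ, (σ ^ (k * d)) v = ∑ j ∈ range (k + 1), cf σ d a b k j * (σ ^ j) v := by
  intro k
  induction k with
  | zero => simp [cf]
  | succ k ih =>
    have e1 : (σ ^ ((k + 1) * d)) v = (σ ^ d) ((σ ^ (k * d)) v) := by
      rw [pow_mul_apply]
      congr 2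
      ring
    rw [e1, ih, map_sum]
    rw [← step σ d a b k (fun j => (σ ^ j) v) (fun j => (σ ^ j) ((σ ^ d) v))]
    · apply sum_congr rfl
      intro j _
      rw [map_mul, pow_add_comm_apply]
    · intro j
      show (σ ^ j) ((σ ^ d) v) = (σ ^ j) a * (σ ^ j) v + (σ ^ j) b * (σ ^ (j + 1)) v
      rw [hv, map_add, map_mul, map_mul, pow_succ, AlgEquiv.mul_apply]

/-- The quotient coefficients. -/
noncomputable def qf (σ : K ≃ₐ[F] K) (d : ℕ) (a b : K) : ℕ → ℕ → K
  | 0, _ => 0
  | k + 1, i => (if d ≤ i then (σ ^ d) (qf σ d a b k (i - d)) else 0) +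
      (σ ^ d) (cf σ d a b k i)

lemma qf_zero_of_lt (σ : K ≃ₐ[F] K) (d : ℕ) (hd : 2 ≤ d) (a b : K) :
    ∀ k i : ℕ, k * d < i → qf σ d a b (k + 1) i = 0 := by
  intro k
  induction k with
  | zero =>
    intro i hi
    rw [qf, cf_zero_of_lt σ d a b 0 i (by omega), map_zero, add_zero]
    split_ifs
    · rw [qf, map_zero]
    · rfl
  | succ k ih =>
    intro i hi
    have h1 : k + 1 < i := by
      have : k + 1 ≤ (k + 1) * d := Nat.le_mul_of_pos_right _ (by omega)
      omega
    rw [qf, cf_zero_of_lt σ d a b (k + 1) i h1, map_zero, add_zero]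
    split_ifs with h
    · rw [ih (i - d) (by rw [add_mul] at hi; omega), map_zero]
    · rfl

lemma qf_lead (σ : K ≃ₐ[F] K) (d : ℕ) (hd : 2 ≤ d) (a b : K) :
    ∀ k : ℕ, qf σ d a b (k + 1) (k * d) = 1 := by
  intro k
  induction k with
  | zero =>
    rw [zero_mul, qf, if_neg (by omega), cf, map_one, zero_add]
  | succ k ih =>
    have h1 : k + 1 < (k + 1) * d := by nlinarith
    rw [qf, cf_zero_of_lt σ d a b (k + 1) _ h1, map_zero, add_zero,
      if_pos (by rw [add_mul]; omega)]
    have h2 : (k + 1) * d - d = k * d := by rw [add_mul]; omega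
    rw [h2, ih, map_one]

lemma qf_const (σ : K ≃ₐ[F] K) (d : ℕ) (hd : 2 ≤ d) (a b : K) (k : ℕ) :
    qf σ d a b (k + 1) 0 = (σ ^ d) (cf σ d a b k 0) := by
  rw [qf, if_neg (by omega), zero_add]

lemma reduce (σ : K ≃ₐ[F] K) (d : ℕ) (hd : 2 ≤ d) (a b : K) (x : K) :
    ∀ k : ℕ, (σ ^ ((k + 1) * d)) x = ∑ j ∈ range (k + 2), cf σ d a b (k + 1) j * (σ ^ j) x +
      ∑ i ∈ range (k * d + 1), qf σ d a b (k + 1) i *
        (σ ^ i) ((σ ^ d) x - (a * x + b * σ x)) := by
  intro k
  set w := (σ ^ d) x - (a * x + b * σ x) with hw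
  have hx : (σ ^ d) x = (a * x + b * σ x) + w := by rw [hw]; ring
  have key : ∀ k : ℕ, ∑ j ∈ range (k + 1), (σ ^ d) (cf σ d a b k j) * (σ ^ j) ((σ ^ d) x) =
      ∑ j ∈ range (k + 2), cf σ d a b (k + 1) j * (σ ^ j) x +
      ∑ j ∈ range (k + 1), (σ ^ d) (cf σ d a b k j) * (σ ^ j) w := by
    intro k
    rw [← step σ d a b k (fun j => (σ ^ j) x)
      (fun j => (σ ^ j) a * (σ ^ j) x + (σ ^ j) b * (σ ^ (j + 1)) x) (fun j => rfl),
      ← sum_add_distrib]
    apply sum_congr rfl
    intro j _
    rw [hx, map_add, map_add, map_mul, map_mul, pow_succ, AlgEquiv.mul_apply]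
    ring
  induction k with
  | zero =>
    have h0 := key 0
    rw [zero_add, sum_range_one, sum_range_one] at h0
    rw [zero_mul, zero_add, sum_range_one, qf_const σ d hd, one_mul]
    simp only [cf, map_one, one_mul, pow_zero, AlgEquiv.one_apply] at h0 ⊢
    exact h0
  | succ k ih =>
    have e1 : (σ ^ ((k + 1 + 1) * d)) x = (σ ^ d) ((σ ^ ((k + 1) * d)) x) := by
      rw [pow_mul_apply]
      congr 2
      ring
    rw [e1, ih, map_add, map_sum, map_sum]
    have h1 : ∑ j ∈ range (k + 2), (σ ^ d) (cf σ d a b (k + 1) j * (σ ^ j) x) =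
        ∑ j ∈ range (k + 1 + 1), (σ ^ d) (cf σ d a b (k + 1) j) * (σ ^ j) ((σ ^ d) x) := by
      apply sum_congr rfl
      intro j _
      rw [map_mul, pow_add_comm_apply]
    rw [h1, key (k + 1), add_assoc]
    congr 1
    -- the quotient part
    have h2 : ∀ i, qf σ d a b (k + 1 + 1) i * (σ ^ i) w =
        (if d ≤ i then (σ ^ d) (qf σ d a b (k + 1) (i - d)) * (σ ^ i) w else 0) +
          (σ ^ d) (cf σ d a b (k + 1) i) * (σ ^ i) w := by
      intro i
      rw [qf]
      split_ifs <;> ring
    rw [sum_congr rfl (fun i _ => h2 i), sum_add_distrib, add_comm]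
    congr 1
    · have e2 : (k + 1) * d + 1 = d + (k * d + 1) := by ring
      rw [e2, Finset.sum_range_add (fun i => if d ≤ i then (σ ^ d) (qf σ d a b (k + 1) (i - d)) *
          (σ ^ i) w else 0) d (k * d + 1)]
      have h3 : ∑ i ∈ range d, (if d ≤ i then (σ ^ d) (qf σ d a b (k + 1) (i - d)) *
          (σ ^ i) w else 0) = 0 := by
        apply sum_eq_zero
        intro i hi
        rw [mem_range] at hi
        rw [if_neg (by omega)]
      rw [h3, zero_add]
      apply sum_congr rfl
      intro i _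
      rw [if_pos (by omega), Nat.add_sub_cancel_left, map_mul, pow_mul_apply]
    · have h4 : k + 1 + 1 ≤ (k + 1) * d + 1 := by nlinarith
      rw [← Finset.sum_subset (range_mono h4)]
      intro i _ hi
      rw [mem_range, not_lt] at hi
      rw [cf_zero_of_lt σ d a b (k + 1) i (by omega), map_zero, zero_mul]

/-- The conditions on the coefficients of `T^(d^2)` modulo `T^d - b T - a`. -/
def Cond (σ : K ≃ₐ[F] K) (d : ℕ) (a b : K) : Prop :=
  cf σ d a b d 0 + cf σ d a b d d * a = 0 ∧
  cf σ d a b d 1 + cf σ d a b d d * b = 1 ∧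
  ∀ j, 2 ≤ j → j < d → cf σ d a b d j = 0

section main

variable [FiniteDimensional F K]

lemma ker_trinomial_le (σ : K ≃ₐ[F] K)
    (hfix : ∀ x : K, σ x = x → ∃ r : F, algebraMap F K r = x) {d : ℕ} (hd : 2 ≤ d) (a b : K) :
    finrank F (LinearMap.ker (trinomial σ d a b)) ≤ d := by
  let c : ℕ → K := fun i => if i = 0 then a else if i = 1 then b else if i = d then -1 else 0
  have h1 : ev σ c (d + 1) = trinomial σ d a b := by
    ext x
    rw [ev_apply, trinomial_apply, sum_range_succ]
    have h2 : ∑ i ∈ range d, c i * (σ ^ i) x = a * x + b * σ x := by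
      obtain ⟨m, rfl⟩ : ∃ m, d = m + 2 := ⟨d - 2, by omega⟩
      rw [sum_range_succ', sum_range_succ', sum_eq_zero]
      · simp [c]; ring
      · intro i hi
        rw [mem_range] at hi
        have : c (i + 1 + 1) = 0 := by
          simp only [c]
          rw [if_neg (by omega), if_neg (by omega), if_neg (by omega)]
        rw [this, zero_mul]
    have h3 : c d = -1 := by
      have hd0 : d ≠ 0 := by omega
      have hd1 : d ≠ 1 := by omega
      simp [c, hd0, hd1]
    rw [h2, h3]; ring
  have h4 := ker_lt σ hfix (d + 1) c ⟨d, by omega, by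
    have hd0 : d ≠ 0 := by omega
    have hd1 : d ≠ 1 := by omega
    simp [c, hd0, hd1]⟩
  rw [h1] at h4
  omega

/-- Sufficiency. -/
theorem finrank_of_cond (σ : K ≃ₐ[F] K)
    (hfix : ∀ x : K, σ x = x → ∃ r : F, algebraMap F K r = x) {d : ℕ} (hd : 2 ≤ d)
    (hn : finrank F K = d ^ 2 - 1) (hσ : σ ^ (d * d) = σ) {a b : K} (ha : a ≠ 0)
    (hc : Cond σ d a b) : finrank F (LinearMap.ker (trinomial σ d a b)) = d := by
  apply le_antisymm (ker_trinomial_le σ hfix hd a b)
  obtain ⟨h0, h1, h2⟩ := hc
  obtain ⟨m, rfl⟩ : ∃ m, d = m + 2 := ⟨d - 2, by omega⟩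
  -- the cofactor
  let f : ℕ → K := fun i => qf σ (m + 2) a b (m + 1 + 1) i +
    (if i = 0 then cf σ (m + 2) a b (m + 2) (m + 2) else 0)
  have hf0 : f 0 = 0 := by
    simp only [f, if_true]
    rw [qf_const σ (m + 2) hd]
    have h3 : cf σ (m + 2) a b (m + 2) 0 = (σ ^ (m + 2)) (cf σ (m + 2) a b (m + 1) 0) * a := by
      conv_lhs => rw [cf]
    rw [h3, ← add_mul] at h0
    exact (mul_eq_zero.mp h0).resolve_right ha
  have hflead : f ((m + 1) * (m + 2)) = 1 := by
    simp only [f]
    rw [if_neg (by positivity), add_zero]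
    exact qf_lead σ (m + 2) hd a b (m + 1)
  have hfL : ∀ x, ∑ i ∈ range ((m + 1) * (m + 2) + 1), f i * (σ ^ i) (trinomial σ (m + 2) a b x) =
      0 := by
    intro x
    have h3 := reduce σ (m + 2) hd a b x (m + 1)
    have h4 : ∑ j ∈ range (m + 1 + 2), cf σ (m + 2) a b (m + 1 + 1) j * (σ ^ j) x =
        σ x - cf σ (m + 2) a b (m + 2) (m + 2) * trinomial σ (m + 2) a b x := by
      rw [sum_range_succ, sum_range_succ', sum_range_succ', sum_eq_zero]
      · have h5 : (m + 1 + 1) = m + 2 := rfl
        rw [trinomial_apply, h5]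
        simp only [zero_add, pow_one, pow_zero, AlgEquiv.one_apply]
        linear_combination x * h0 + σ x * h1
      · intro j hj
        rw [mem_range] at hj
        have := h2 (j + 1 + 1) (by omega) (by omega)
        have h5 : (m + 1 + 1) = m + 2 := rfl
        rw [h5, this, zero_mul]
    have h5 : (σ ^ ((m + 1 + 1) * (m + 2))) x = σ x := by
      have : (m + 1 + 1) = m + 2 := rfl
      rw [this, hσ]
    have h6 : ∀ i, f i * (σ ^ i) (trinomial σ (m + 2) a b x) =
        -(qf σ (m + 2) a b (m + 1 + 1) i * (σ ^ i) ((σ ^ (m + 2)) x - (a * x + b * σ x))) +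
        (if i = 0 then cf σ (m + 2) a b (m + 2) (m + 2) * trinomial σ (m + 2) a b x else 0) := by
      intro i
      simp only [f]
      have h7 : (σ ^ i) (trinomial σ (m + 2) a b x) =
          -(σ ^ i) ((σ ^ (m + 2)) x - (a * x + b * σ x)) := by
        rw [← map_neg, trinomial_apply]
        congr 1
        ring
      by_cases hi : i = 0
      · subst hi
        rw [if_pos rfl, if_pos rfl, add_mul, h7, pow_zero, AlgEquiv.one_apply, trinomial_apply]
        ring
      · rw [if_neg hi, if_neg hi, h7]; ring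
    rw [sum_congr rfl (fun i _ => h6 i), sum_add_distrib, sum_neg_distrib, sum_ite_eq' (range _) 0,
      if_pos (by rw [mem_range]; omega)]
    rw [h5, h4] at h3
    linear_combination h3
  let g : ℕ → K := fun i => f (i + 1)
  have hpos : 0 < (m + 1) * (m + 2) := by positivity
  have hg := ker_lt σ hfix ((m + 1) * (m + 2)) g ⟨(m + 1) * (m + 2) - 1, by omega, by
    simp only [g]
    rw [Nat.sub_add_cancel hpos, hflead]
    exact one_ne_zero⟩
  have hrange : LinearMap.range (σ.toLinearMap.comp (trinomial σ (m + 2) a b)) ≤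
      LinearMap.ker (ev σ g ((m + 1) * (m + 2))) := by
    rintro _ ⟨x, rfl⟩
    rw [LinearMap.mem_ker, ev_apply]
    have h3 := hfL x
    rw [sum_range_succ', hf0, zero_mul, add_zero] at h3
    rw [← h3]
    apply sum_congr rfl
    intro i _
    simp only [g]
    rw [pow_succ, AlgEquiv.mul_apply]
    rfl
  have h7 := Submodule.finrank_mono hrange
  have h8 := LinearMap.finrank_range_add_finrank_ker
    (σ.toLinearMap.comp (trinomial σ (m + 2) a b))
  have h9 : LinearMap.ker (σ.toLinearMap.comp (trinomial σ (m + 2) a b)) =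
      LinearMap.ker (trinomial σ (m + 2) a b) := by
    ext x
    rw [LinearMap.mem_ker, LinearMap.mem_ker, LinearMap.comp_apply]
    constructor
    · intro h
      exact σ.injective (by rw [map_zero]; exact h)
    · intro h
      rw [h, map_zero]
  rw [h9, hn] at h8
  have h10 : (m + 2) ^ 2 - 1 = (m + 1) * (m + 2) + (m + 1) := by
    have : (m + 2) ^ 2 = (m + 1) * (m + 2) + (m + 1) + 1 := by ring
    omega
  omega

/-- Necessity. -/
theorem cond_of_finrank (σ : K ≃ₐ[F] K)
    (hfix : ∀ x : K, σ x = x → ∃ r : F, algebraMap F K r = x) {d : ℕ} (hd : 2 ≤ d)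
    (hσ : σ ^ (d * d) = σ) {a b : K}
    (hk : finrank F (LinearMap.ker (trinomial σ d a b)) = d) : a ≠ 0 ∧ Cond σ d a b := by
  constructor
  · rintro rfl
    let c : ℕ → K := fun i => if i = 0 then b else if i = d - 1 then -1 else 0
    have h1 : ∀ x, ev σ (fun i => if i = 0 then b - (if d = 1 then 1 else 0) else
        if i = d - 1 then -1 else 0) d (σ x) = trinomial σ d 0 b x := by
      intro x
      rw [ev_apply, trinomial_apply]
      obtain ⟨m, rfl⟩ : ∃ m, d = m + 2 := ⟨d - 2, by omega⟩
      rw [sum_range_succ, sum_range_succ', sum_eq_zero]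
      · have e : (σ ^ (m + 1)) (σ x) = (σ ^ (m + 2)) x := by
          rw [← AlgEquiv.mul_apply, ← pow_succ]
        have hm : ¬ (m + 2 = 1) := by omega
        rw [if_pos rfl, if_neg hm, if_neg (by omega : ¬ m + 1 = 0),
          if_pos (by omega : m + 1 = m + 2 - 1), pow_zero, AlgEquiv.one_apply, e]
        ring
      · intro i hi
        rw [mem_range] at hi
        rw [if_neg (by omega), if_neg (by omega), zero_mul]
    have h2 := ker_lt σ hfix d (fun i => if i = 0 then b - (if d = 1 then 1 else 0) else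
        if i = d - 1 then -1 else 0) ⟨d - 1, by omega, by
          simp only
          rw [if_neg (by omega), if_pos trivial]
          exact neg_ne_zero.mpr one_ne_zero⟩
    have h3 : finrank F (LinearMap.ker (trinomial σ d 0 b)) ≤ finrank F (LinearMap.ker
        (ev σ (fun i => if i = 0 then b - (if d = 1 then 1 else 0) else
        if i = d - 1 then -1 else 0) d)) := by
      let k : LinearMap.ker (trinomial σ d 0 b) →ₗ[F] LinearMap.ker
        (ev σ (fun i => if i = 0 then b - (if d = 1 then 1 else 0) else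
        if i = d - 1 then -1 else 0) d) :=
        LinearMap.codRestrict _ (σ.toLinearMap.comp (LinearMap.ker (trinomial σ d 0 b)).subtype)
          (fun x => by
            rw [LinearMap.mem_ker]
            have := x.2
            rw [LinearMap.mem_ker, ← h1] at this
            exact this)
      apply LinearMap.finrank_le_finrank_of_injective (f := k)
      intro x y hxy
      have := congrArg Subtype.val hxy
      simp only [k, LinearMap.codRestrict_apply, LinearMap.comp_apply,
        Submodule.subtype_apply] at this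
      exact Subtype.ext (σ.injective this)
    omega
  · -- coefficients vanish
    let e : ℕ → K := fun j => cf σ d a b d j + (if j = 0 then cf σ d a b d d * a else 0) +
      (if j = 1 then cf σ d a b d d * b - 1 else 0)
    have h1 : LinearMap.ker (trinomial σ d a b) ≤ LinearMap.ker (ev σ e d) := by
      intro v hv
      rw [LinearMap.mem_ker, trinomial_apply, sub_eq_zero] at hv
      have h2 := reduce_ker σ d a b v hv.symm d
      rw [hσ, sum_range_succ, ← hv] at h2
      rw [LinearMap.mem_ker, ev_apply]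
      have h3 : ∀ j ∈ range d, e j * (σ ^ j) v = cf σ d a b d j * (σ ^ j) v +
          ((if j = 0 then cf σ d a b d d * a * v else 0) +
            (if j = 1 then (cf σ d a b d d * b - 1) * σ v else 0)) := by
        intro j _
        simp only [e]
        by_cases h0 : j = 0
        · subst h0
          simp
          ring
        · by_cases h1 : j = 1
          · subst h1
            simp
            ring
          · rw [if_neg h0, if_neg h1, if_neg h0, if_neg h1]; ring
      rw [sum_congr rfl h3, sum_add_distrib, sum_add_distrib, sum_ite_eq' (range d) 0,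
        sum_ite_eq' (range d) 1, if_pos (by rw [mem_range]; omega),
        if_pos (by rw [mem_range]; omega)]
      linear_combination -h2
    have h2 := Submodule.finrank_mono h1
    rw [hk] at h2
    have h3 : ∀ j < d, e j = 0 := by
      intro j hj
      by_contra hne
      have := ker_lt σ hfix d e ⟨j, hj, hne⟩
      omega
    refine ⟨?_, ?_, ?_⟩
    · have := h3 0 (by omega)
      simp only [e] at this
      simpa using this
    · have := h3 1 (by omega)
      simp only [e] at this
      simp at this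
      linear_combination this
    · intro j hj1 hj2
      have := h3 j hj2
      simp only [e] at this
      rw [if_neg (by omega), if_neg (by omega), add_zero, add_zero] at this
      exact this

end main

end Pool.Agent.K3h23.Tri
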