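import Pool.Agent.K3h23.Tri.Main

set_option autoImplicit false

namespace Pool.Agent.K3h23.Tri

open Finset Module

section galois

variable {F K : Type*} [Field F] [Fintype F] [Field K] [Finite K] [Algebra F K]

lemma hfix_of_gen (σ : K ≃ₐ[F] K) (hσ : ∀ τ : K ≃ₐ[F] K, τ ∈ Subgroup.zpowers σ) :
    ∀ x : K, σ x = x → ∃ r : F, algebraMap F K r = x := by
  intro x hx
  have h1 : x ∈ (⊥ : IntermediateField F K) := by
    rw [IsGalois.mem_bot_iff_fixed]
    intro τ
    have h2 : Subgroup.zpowers σ ≤ MulAction.stabilizer (K ≃ₐ[F] K) x := by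
      rw [Subgroup.zpowers_le]
      exact hx
    exact h2 (hσ τ)
  rw [IntermediateField.mem_bot] at h1
  obtain ⟨r, hr⟩ := h1
  exact ⟨r, hr⟩

lemma orderOf_gen (σ : K ≃ₐ[F] K) (hσ : ∀ τ : K ≃ₐ[F] K, τ ∈ Subgroup.zpowers σ) :
    orderOf σ = finrank F K := by
  rw [orderOf_eq_card_of_forall_mem_zpowers hσ, IsGalois.card_aut_eq_finrank]

lemma norm_eq_G (φ : K ≃ₐ[F] K) (hφ : orderOf φ = finrank F K) (a : K) :
    algebraMap F K (Algebra.norm F a) = G φ a (finrank F K) := by
  classical
  have hcard : Fintype.card (K ≃ₐ[F] K) = finrank F K := by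
    rw [← Nat.card_eq_fintype_card, IsGalois.card_aut_eq_finrank]
  have hinj : Set.InjOn (fun i => φ ^ i) (range (finrank F K) : Set ℕ) := by
    rw [coe_range, ← hφ]
    exact pow_injOn_Iio_orderOf
  have himg : (range (finrank F K)).image (fun i => φ ^ i) = univ := by
    apply eq_univ_of_card
    rw [card_image_of_injOn hinj, card_range, hcard]
  rw [Algebra.norm_eq_prod_automorphisms, ← himg, prod_image hinj, G]

/-- A generator is a power of Frobenius with exponent prime to the degree. -/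
lemma exists_frob (σ : K ≃ₐ[F] K) (ho : orderOf σ = finrank F K) :
    ∃ s : ℕ, Nat.Coprime (finrank F K) s ∧
      ∀ (m : ℕ) (x : K), (σ ^ m) x = x ^ (Fintype.card F ^ (s * m)) := by
  obtain ⟨⟨s, hs⟩, hsσ⟩ := (FiniteField.bijective_frobeniusAlgEquivOfAlgebraic_pow F K).2 σ
  simp only at hsσ
  have hn : 0 < finrank F K := finrank_pos
  refine ⟨s, ?_, ?_⟩
  · rw [← hsσ, orderOf_pow, FiniteField.orderOf_frobeniusAlgEquivOfAlgebraic] at ho
    have h1 : 0 < Nat.gcd (finrank F K) s := Nat.gcd_pos_of_pos_left _ hn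
    have h2 := Nat.div_mul_cancel (Nat.gcd_dvd_left (finrank F K) s)
    rw [ho] at h2
    exact Nat.eq_of_mul_eq_mul_left hn (by rw [h2, mul_one])
  · intro m x
    rw [← hsσ, ← pow_mul, AlgEquiv.coe_pow, FiniteField.coe_frobeniusAlgEquivOfAlgebraic_iterate]

end galois

lemma two_sq {d : ℕ} (hd : 2 ≤ d) : d * d = (d ^ 2 - 1) + 1 := by
  have : 0 < d ^ 2 := by positivity
  have h2 : d ^ 2 = d * d := by ring
  omega

lemma coprime_d {d : ℕ} (hd : 2 ≤ d) : Nat.Coprime (d ^ 2 - 1) d := by
  have h : Nat.Coprime (d ^ 2 - 1) (d ^ 2) := by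
    have h1 : d ^ 2 = (d ^ 2 - 1) + 1 := by
      have : 0 < d ^ 2 := by positivity
      omega
    conv_rhs => rw [h1]
    simp
  exact Nat.Coprime.coprime_dvd_right (Dvd.intro_left (d ^ 1) (by ring)) h

theorem main {p : ℕ} [Fact p.Prime] {F K : Type*} [Field F] [Fintype F] [CharP F p] [Field K]
    [Algebra F K] {d : ℕ} (hd : 2 ≤ d) (hn : finrank F K = d ^ 2 - 1) (σ : K ≃ₐ[F] K)
    (hσ : ∀ τ : K ≃ₐ[F] K, τ ∈ Subgroup.zpowers σ) (a b : K) :
    finrank F (LinearMap.ker (trinomial σ d a b)) = d ↔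
      Algebra.norm F a = (-1) ^ (d - 1) ∧
        (((∃ k, d = p ^ k) ∧ b = -(R (σ ^ d) d a)⁻¹) ∨
          (d.Prime ∧ orderOf (Fintype.card F : ZMod d) = d - 1 ∧
            ∃ M : K, IsPrimitiveRoot M d ∧ b = -M * (R (σ ^ d) d a)⁻¹)) := by
  have hnpos : 0 < finrank F K := by
    rw [hn]
    have : 2 * 2 ≤ d * d := Nat.mul_le_mul hd hd
    have := two_sq hd
    omega
  have : FiniteDimensional F K := Module.finite_of_finrank_pos hnpos
  have : Finite K := Module.finite_of_finite F
  have : CharP K p := charP_of_injective_algebraMap' F p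
  have hfix := hfix_of_gen σ hσ
  have ho := orderOf_gen σ hσ
  have hσ1 : σ ^ (d ^ 2 - 1) = 1 := by rw [← hn, ← ho, pow_orderOf_eq_one]
  have hσd : σ ^ (d * d) = σ := by rw [two_sq hd, pow_succ, hσ1, one_mul]
  set φ := σ ^ d with hφ
  have hoφ : orderOf φ = finrank F K := by
    rw [hφ, Nat.Coprime.orderOf_pow (by rw [ho, hn]; exact coprime_d hd), ho]
  have hnorm := norm_eq_G φ hoφ a
  have hGdd : G φ a (d * d) = a * algebraMap F K (Algebra.norm F a) := by
    rw [two_sq hd, ← hn, G_succ', ← hnorm, AlgEquiv.commutes]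
  have hinjF : Function.Injective (algebraMap F K) := (algebraMap F K).injective
  -- the Frobenius data
  obtain ⟨s, hs, hfrob⟩ := exists_frob σ ho
  have ht : Nat.Coprime (d - 1) (s * d) := by
    apply Nat.Coprime.mul_right
    · apply Nat.Coprime.coprime_dvd_left _ hs
      rw [hn]
      refine ⟨d + 1, ?_⟩
      obtain ⟨m, rfl⟩ : ∃ m, d = m + 1 := ⟨d - 1, by omega⟩
      rw [Nat.add_sub_cancel]
      have : (m + 1) ^ 2 = m * (m + 1 + 1) + 1 := by ring
      omega
    · have h1 : Nat.Coprime (d - 1) (d - 1 + 1) := by simp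
      rwa [Nat.sub_add_cancel (by omega : 1 ≤ d)] at h1
  have hφM : ∀ (i : ℕ) (M : K), (φ ^ i) M = M ^ (Fintype.card F ^ (s * d * i)) := by
    intro i M
    rw [hφ, ← pow_mul, hfrob, mul_assoc]
  have hq : ∀ {M : K}, d.Prime → IsPrimitiveRoot M d → ¬ d ∣ Fintype.card F := by
    intro M hdp hM hdq
    obtain ⟨f, hp, hf⟩ := FiniteField.card F p
    rw [hf] at hdq
    have h1 : d ∣ p := hdp.dvd_of_dvd_pow hdq
    have h2 : d = p := (Nat.prime_dvd_prime_iff_eq hdp hp).mp h1
    subst h2
    have h3 : (M - 1) ^ d = 0 := by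
      rw [sub_pow_char, hM.pow_eq_one, one_pow, sub_self]
    have h4 : M = 1 := by
      have := pow_eq_zero_iff (by omega) |>.mp h3
      linear_combination this
    exact hM.ne_one (by omega) h4
  constructor
  · intro hk
    obtain ⟨ha, hc⟩ := cond_of_finrank σ hfix hd hσd hk
    obtain ⟨M, hb, hM⟩ := shape σ hd hσ1 ha hc
    rw [Cond_iff σ hd hσd ha hb hM] at hc
    obtain ⟨h1, h2⟩ := hc
    rw [← hφ] at h1 h2 hb hM
    rw [W_cond_iff φ hd hM, P_iff_Q φ hd] at h2
    have hMd : M ^ d = 1 := by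
      have := root_of_Q φ h2 0 (by omega)
      simpa using this
    refine ⟨?_, ?_⟩
    · apply hinjF
      rw [hGdd, hMd, mul_one] at h1
      have h3 : algebraMap F K (Algebra.norm F a) = (-1) ^ (d + 1) := by
        apply mul_left_cancel₀ ha
        rw [h1, mul_comm]
      rw [h3, map_pow, map_neg, map_one]
      have h4 : d + 1 = (d - 1) + 2 := by omega
      rw [h4, pow_add]
      simp
    · rcases classify p φ hd h2 with ⟨hM1, hpk⟩ | ⟨hdp, hMp, hinj⟩
      · left
        refine ⟨hpk, ?_⟩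
        rw [hb, hM1]
        field_simp
      · right
        refine ⟨hdp, ?_, M, hMp, by rw [hb]; field_simp⟩
        exact (inj_iff φ hdp (hq hdp hMp) hMp ht (fun i => hφM i M)).mp hinj
  · rintro ⟨hN, hcase⟩
    have ha : a ≠ 0 := by
      rintro rfl
      rw [Algebra.norm_zero] at hN
      exact pow_ne_zero _ (neg_ne_zero.mpr one_ne_zero) hN.symm
    -- common part
    have key : ∀ M : K, b = -M / R φ d a → (φ ^ (d - 1)) M = M →
        Q φ d M * (Polynomial.X - 1) = Polynomial.X ^ d - 1 →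
        finrank F (LinearMap.ker (trinomial σ d a b)) = d := by
      intro M hb hM hQ
      apply finrank_of_cond σ hfix hd hn hσd ha
      rw [Cond_iff σ hd hσd ha hb hM]
      refine ⟨?_, ?_⟩
      · rw [← hφ, hGdd, hN, map_pow, map_neg, map_one]
        have hMd : M ^ d = 1 := by
          have := root_of_Q φ hQ 0 (by omega)
          simpa using this
        rw [hMd]
        have h4 : d + 1 = (d - 1) + 2 := by omega
        rw [h4, pow_add]
        simp
        ring
      · rw [← hφ, W_cond_iff φ hd hM, P_iff_Q φ hd]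
        exact hQ
    rcases hcase with ⟨hpk, hb⟩ | ⟨hdp, hord, M, hMp, hb⟩
    · apply key 1 (by rw [hb]; field_simp) (by rw [map_one])
      exact Q_of_pow p φ hpk
    · apply key M (by rw [hb]; field_simp)
      · rw [hφM]
        have hd2 := hdp.two_le
        have : Fact d.Prime := ⟨hdp⟩
        have h1 : ((Fintype.card F : ZMod d)) ^ (s * d * (d - 1)) = 1 := by
          have h2 : (Fintype.card F : ZMod d) ^ (d - 1) = 1 := by
            rw [← hord, pow_orderOf_eq_one]
          rw [mul_comm, pow_mul, h2, one_pow]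
        have h3 : Fintype.card F ^ (s * d * (d - 1)) ≡ 1 [MOD d] := by
          rw [← ZMod.natCast_eq_natCast_iff, Nat.cast_pow, h1, Nat.cast_one]
        have h4 : M ^ (Fintype.card F ^ (s * d * (d - 1))) = M ^ 1 := by
          have e : ∀ z : ℕ, M ^ z = M ^ (z % d) := by
            intro z
            rw [hMp.eq_orderOf, pow_mod_orderOf]
          rw [e, e 1, show _ % d = 1 % d from h3]
        rw [h4, pow_one]
      · apply Q_of_inj φ hd hMp
        exact (inj_iff φ hdp (hq hdp hMp) hMp ht (fun i => hφM i M)).mpr hord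

/-- Existence of the relevant roots of unity. -/
theorem exists_root {p : ℕ} [Fact p.Prime] {F K : Type*} [Field F] [Fintype F] [CharP F p]
    [Field K] [Algebra F K] {d : ℕ} (hd : 2 ≤ d) (hn : finrank F K = d ^ 2 - 1)
    (hdp : d.Prime) (hord : orderOf (Fintype.card F : ZMod d) = d - 1) :
    ∃ M : K, IsPrimitiveRoot M d := by
  have hnpos : 0 < finrank F K := by
    rw [hn]
    have : 2 * 2 ≤ d * d := Nat.mul_le_mul hd hd
    have := two_sq hd
    omega
  have : FiniteDimensional F K := Module.finite_of_finrank_pos hnpos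
  have : Finite K := Module.finite_of_finite F
  have : Fact d.Prime := ⟨hdp⟩
  classical
  cases nonempty_fintype K
  have h1 : (Fintype.card F : ZMod d) ^ (d ^ 2 - 1) = 1 := by
    have h2 : d ^ 2 - 1 = (d - 1) * (d + 1) := by
      obtain ⟨m, rfl⟩ : ∃ m, d = m + 1 := ⟨d - 1, by omega⟩
      rw [Nat.add_sub_cancel]
      have : (m + 1) ^ 2 = m * (m + 1 + 1) + 1 := by ring
      omega
    rw [h2, pow_mul, ← hord, pow_orderOf_eq_one, one_pow]
  have hcardK : Fintype.card K = Fintype.card F ^ (d ^ 2 - 1) := by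
    rw [← hn]; exact Module.card_eq_pow_finrank
  have hdvd : d ∣ Fintype.card Kˣ := by
    rw [Fintype.card_units, hcardK]
    have h3 : 1 ≡ Fintype.card F ^ (d ^ 2 - 1) [MOD d] := by
      rw [← ZMod.natCast_eq_natCast_iff, Nat.cast_pow, h1, Nat.cast_one]
    exact (Nat.modEq_iff_dvd' (Nat.one_le_pow _ _ Fintype.card_pos)).mp h3
  obtain ⟨u, hu⟩ := exists_prime_orderOf_dvd_card d hdvd
  refine ⟨(u : K), ?_⟩
  rw [IsPrimitiveRoot.coe_units_iff, ← hu]
  exact IsPrimitiveRoot.orderOf u

end Pool.Agent.K3h23.Tri
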