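import Mathlib

set_option autoImplicit false

namespace Pool.Agent.K3h23.Tri

open Finset Module

variable {F K : Type*} [Field F] [Field K] [Algebra F K]

/-- The operator `∑_{i<N} c i σ^i`. -/
noncomputable def ev (σ : K ≃ₐ[F] K) (c : ℕ → K) (N : ℕ) : K →ₗ[F] K :=
  ∑ i ∈ range N, (LinearMap.mulLeft F (c i)).comp (σ ^ i : K ≃ₐ[F] K).toLinearMap

lemma ev_apply (σ : K ≃ₐ[F] K) (c : ℕ → K) (N : ℕ) (x : K) :
    ev σ c N x = ∑ i ∈ range N, c i * (σ ^ i) x := by
  simp [ev, LinearMap.sum_apply]

/-- Summation by parts. -/
lemma abel (e y : ℕ → K) (N : ℕ) :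
    ∑ i ∈ range (N + 1), e i * y i = (∑ i ∈ range (N + 1), e i) * y 0 +
      ∑ j ∈ range N, (∑ i ∈ Ico (j + 1) (N + 1), e i) * (y (j + 1) - y j) := by
  induction N with
  | zero => simp
  | succ N ih =>
    rw [sum_range_succ, ih, sum_range_succ (fun i => e i) (N + 1)]
    have h1 : ∀ j ∈ range (N + 1), (∑ i ∈ Ico (j + 1) (N + 1 + 1), e i) * (y (j + 1) - y j) =
        (∑ i ∈ Ico (j + 1) (N + 1), e i) * (y (j + 1) - y j) + e (N + 1) * (y (j + 1) - y j) := by
      intro j hj
      rw [mem_range] at hj
      rw [sum_Ico_succ_top (by omega)]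
      ring
    rw [sum_congr rfl h1, sum_add_distrib, ← mul_sum, sum_range_sub,
      sum_range_succ (fun j => (∑ i ∈ Ico (j + 1) (N + 1), e i) * (y (j + 1) - y j)) N]
    rw [Ico_self, sum_empty]
    ring

lemma finrank_ker_comp_le [FiniteDimensional F K] (g f : K →ₗ[F] K) :
    finrank F (LinearMap.ker (g.comp f)) ≤
      finrank F (LinearMap.ker f) + finrank F (LinearMap.ker g) := by
  let S := LinearMap.ker (g.comp f)
  have hS : ∀ x : S, f x ∈ LinearMap.ker g := fun x => by
    have := x.2
    rw [LinearMap.mem_ker, LinearMap.comp_apply] at this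
    rwa [LinearMap.mem_ker]
  let h : S →ₗ[F] LinearMap.ker g := LinearMap.codRestrict _ (f.domRestrict S) hS
  have h1 := LinearMap.finrank_range_add_finrank_ker h
  have h2 : finrank F (LinearMap.range h) ≤ finrank F (LinearMap.ker g) :=
    Submodule.finrank_le _
  have h3 : finrank F (LinearMap.ker h) ≤ finrank F (LinearMap.ker f) := by
    let k : LinearMap.ker h →ₗ[F] LinearMap.ker f :=
      LinearMap.codRestrict _ (S.subtype.comp (LinearMap.ker h).subtype) (fun x => by
        have := x.2
        rw [LinearMap.mem_ker] at this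
        have h4 : ((h x : LinearMap.ker g) : K) = 0 := by rw [this]; rfl
        rw [LinearMap.mem_ker]
        exact h4)
    apply LinearMap.finrank_le_finrank_of_injective (f := k)
    intro x y hxy
    have := congrArg Subtype.val hxy
    simp only [k, LinearMap.codRestrict_apply, LinearMap.comp_apply, Submodule.subtype_apply] at this
    exact Subtype.ext (Subtype.ext this)
  change finrank F S ≤ _
  omega

/-- A nonzero `σ`-polynomial of degree `< N` has kernel of dimension `< N`. -/
theorem ker_lt [FiniteDimensional F K] (σ : K ≃ₐ[F] K)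
    (hfix : ∀ x : K, σ x = x → ∃ r : F, algebraMap F K r = x) :
    ∀ (N : ℕ) (c : ℕ → K), (∃ i < N, c i ≠ 0) → finrank F (LinearMap.ker (ev σ c N)) < N := by
  intro N
  induction N with
  | zero => rintro c ⟨i, hi, -⟩; omega
  | succ N ih =>
    intro c hc
    by_cases hN : c N = 0
    · have h1 : ev σ c (N + 1) = ev σ c N := by
        ext x
        rw [ev_apply, ev_apply, sum_range_succ, hN, zero_mul, add_zero]
      rw [h1]
      obtain ⟨i, hi, hci⟩ := hc
      have hiN : i < N := by
        rcases Nat.lt_succ_iff_lt_or_eq.mp hi with h | h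
        · exact h
        · rw [h] at hci; exact absurd hN hci
      exact (ih c ⟨i, hiN, hci⟩).trans (Nat.lt_succ_self N)
    · by_cases hker : LinearMap.ker (ev σ c (N + 1)) = ⊥
      · rw [hker, finrank_bot]; omega
      · obtain ⟨v, hv, hv0⟩ := Submodule.exists_mem_ne_zero_of_ne_bot hker
        rw [LinearMap.mem_ker, ev_apply] at hv
        set e : ℕ → K := fun i => c i * (σ ^ i) v with he
        set s : ℕ → K := fun j => ∑ i ∈ Ico (j + 1) (N + 1), e i with hs
        let D : K →ₗ[F] K := (σ.toLinearMap - LinearMap.id).comp (LinearMap.mulLeft F v⁻¹)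
        have hD : ∀ x, D x = σ (v⁻¹ * x) - v⁻¹ * x := fun x => by simp [D]
        have hsv : ∀ i, (σ ^ i) v ≠ 0 := fun i => by
          rw [Ne, map_eq_zero_iff _ (σ ^ i).injective]; exact hv0
        have hcomp : ev σ c (N + 1) = (ev σ s N).comp D := by
          ext x
          rw [LinearMap.comp_apply, ev_apply, ev_apply]
          have h1 : ∀ i, c i * (σ ^ i) x = e i * (σ ^ i) (v⁻¹ * x) := by
            intro i
            rw [he, map_mul, map_inv₀]
            have := hsv i
            field_simp
          rw [sum_congr rfl (fun i _ => h1 i), abel e (fun i => (σ ^ i) (v⁻¹ * x)) N, hv,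
            zero_mul, zero_add]
          apply sum_congr rfl
          intro j _
          rw [hD, map_sub, ← AlgEquiv.mul_apply, ← pow_succ]
        have hkD : finrank F (LinearMap.ker D) ≤ 1 := by
          have h1 : LinearMap.ker D ≤ Submodule.span F {v} := by
            intro x hx
            rw [LinearMap.mem_ker, hD, sub_eq_zero] at hx
            obtain ⟨r, hr⟩ := hfix _ hx
            rw [Submodule.mem_span_singleton]
            refine ⟨r, ?_⟩
            rw [Algebra.smul_def, hr]
            field_simp
          calc finrank F (LinearMap.ker D) ≤ finrank F (Submodule.span F {v}) :=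
                Submodule.finrank_mono h1
            _ = 1 := finrank_span_singleton hv0
        rw [hcomp]
        have h2 := finrank_ker_comp_le (ev σ s N) D
        rcases Nat.eq_zero_or_pos N with h0 | hpos
        · subst h0
          exfalso
          rw [zero_add, sum_range_one, pow_zero, AlgEquiv.one_apply] at hv
          rcases mul_eq_zero.mp hv with h | h
          · exact hN h
          · exact hv0 h
        · have h3 : finrank F (LinearMap.ker (ev σ s N)) < N := by
            apply ih
            refine ⟨N - 1, by omega, ?_⟩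
            simp only [hs]
            rw [Nat.sub_add_cancel hpos, Nat.Ico_succ_singleton, sum_singleton, he]
            exact mul_ne_zero hN (hsv N)
          omega

end Pool.Agent.K3h23.Tri
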