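import Pool.Agent.K3h23.Tri.Roots

set_option autoImplicit false

namespace Pool.Agent.K3h23.Tri

open Finset Module

variable {F K : Type*} [Field F] [Field K] [Algebra F K]

theorem Cond_iff (σ : K ≃ₐ[F] K) {d : ℕ} (hd : 2 ≤ d) (hσ : σ ^ (d * d) = σ) {a b M : K}
    (ha : a ≠ 0) (hb : b = -M / R (σ ^ d) d a) (hM : ((σ ^ d) ^ (d - 1)) M = M) :
    Cond σ d a b ↔ (G (σ ^ d) a (d * d) = (-1) ^ (d + 1) * a * M ^ d) ∧
      (W (σ ^ d) M d 1 = M - 1 ∧ ∀ j, 2 ≤ j → j < d → W (σ ^ d) M d j = 0) := by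
  set φ := σ ^ d with hφ
  have hcf := cf_eq σ (by omega : 1 ≤ d) hσ ha hb hM
  have hG : ∀ m, G φ a m ≠ 0 := fun m => G_ne_zero φ ha m
  have hR : R φ d a ≠ 0 := R_ne_zero φ d ha
  have hGd : G φ a d = a * R φ d a := G_eq_mul_R φ (by omega) a
  have hdd : W φ M d d = M ^ d := by
    obtain ⟨m, rfl⟩ : ∃ m, d = m + 1 := ⟨d - 1, by omega⟩
    rw [W_diag]
    rw [Nat.add_sub_cancel] at hM
    rw [hM]
  have c0 : cf σ d a b d 0 = G φ a d := by
    rw [hcf, W_zero, zero_mul, G_zero]; simp [hφ]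
  have cd : cf σ d a b d d = (-1) ^ d * (G φ a d / G φ a (d * d)) * M ^ d := by
    rw [hcf, ← hφ, hdd]
  have c1 : cf σ d a b d 1 = -W φ M d 1 := by
    rw [hcf, ← hφ, one_mul, div_self (hG d)]; ring
  have cj : ∀ j, cf σ d a b d j = 0 ↔ W φ M d j = 0 := by
    intro j
    rw [hcf, ← hφ]
    constructor
    · intro h
      rcases mul_eq_zero.mp h with h1 | h1
      · exfalso
        have h2 : ((-1 : K) ^ j * (G φ a d / G φ a (j * d))) ≠ 0 :=
          mul_ne_zero (pow_ne_zero _ (neg_ne_zero.mpr one_ne_zero)) (div_ne_zero (hG _) (hG _))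
        exact h2 h1
      · exact h1
    · intro h
      rw [h, mul_zero]
  have hsq : ((-1 : K) ^ d) * (-1) ^ d = 1 := by rw [← mul_pow]; simp
  have hcond0 : cf σ d a b d 0 + cf σ d a b d d * a = 0 ↔
      G φ a (d * d) = (-1) ^ (d + 1) * a * M ^ d := by
    rw [c0, cd]
    have h1 := hG d
    have h2 := hG (d * d)
    constructor
    · intro h
      have h3 : G φ a d * (G φ a (d * d) + (-1) ^ d * M ^ d * a) = 0 := by
        field_simp at h
        linear_combination h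
      have h4 := (mul_eq_zero.mp h3).resolve_left h1
      rw [pow_succ]
      linear_combination h4
    · intro h
      have h5 : G φ a (d * d) + (-1) ^ d * M ^ d * a = 0 := by rw [h]; ring
      field_simp
      linear_combination (G φ a d) * h5
  have hmul : (cf σ d a b d 0 + cf σ d a b d d * a = 0) → cf σ d a b d d * b = M := by
    intro h
    rw [c0, hGd] at h
    have h1 : cf σ d a b d d = - R φ d a := by
      have h2 : a * (R φ d a + cf σ d a b d d) = 0 := by linear_combination h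
      have h3 := (mul_eq_zero.mp h2).resolve_left ha
      linear_combination h3
    rw [h1, hb]
    field_simp
  unfold Cond
  constructor
  · rintro ⟨h0, h1, h2⟩
    refine ⟨hcond0.mp h0, ?_, fun j hj1 hj2 => (cj j).mp (h2 j hj1 hj2)⟩
    rw [hmul h0, c1] at h1
    linear_combination -h1
  · rintro ⟨h0, h1, h2⟩
    have h3 := hcond0.mpr h0
    refine ⟨h3, ?_, fun j hj1 hj2 => (cj j).mpr (h2 j hj1 hj2)⟩
    rw [hmul h3, c1, h1]
    ring

lemma cf_diag (σ : K ≃ₐ[F] K) {d : ℕ} (hd : 1 ≤ d) (a b : K) (k : ℕ) :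
    σ (cf σ d a b k k) = (σ ^ k) (G (σ ^ (d - 1)) b k) := by
  induction k with
  | zero => simp [cf, G]
  | succ k ih =>
    rw [cf, cf_zero_of_lt σ d a b k (k + 1) (Nat.lt_succ_self k), map_zero, zero_mul, zero_add,
      map_mul, G_succ', map_mul]
    have h1 : σ ((σ ^ d) (cf σ d a b k k)) = (σ ^ (k + 1)) ((σ ^ (d - 1)) (G (σ ^ (d - 1)) b k)) := by
      have h2 : σ ((σ ^ d) (cf σ d a b k k)) = (σ ^ d) (σ (cf σ d a b k k)) := by
        rw [← AlgEquiv.mul_apply, ← pow_succ', pow_succ, AlgEquiv.mul_apply]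
      rw [h2, ih, pow_mul_apply, pow_mul_apply]
      congr 2
      omega
    have h3 : σ ((σ ^ k) b) = (σ ^ (k + 1)) b := by
      rw [pow_succ', AlgEquiv.mul_apply]
    rw [h1, h3, mul_comm]

/-- In the maximum kernel case `b` has the special shape. -/
theorem shape (σ : K ≃ₐ[F] K) {d : ℕ} (hd : 2 ≤ d) (hσ1 : σ ^ (d ^ 2 - 1) = 1) {a b : K}
    (ha : a ≠ 0) (hc : Cond σ d a b) :
    ∃ M : K, b = -M / R (σ ^ d) d a ∧ ((σ ^ d) ^ (d - 1)) M = M := by
  set ρ := σ ^ (d - 1) with hρ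
  have hσρ : ρ ^ (d + 1) = 1 := by
    rw [hρ, ← pow_mul, ← hσ1]
    congr 1
    obtain ⟨m, rfl⟩ : ∃ m, d = m + 1 := ⟨d - 1, by omega⟩
    rw [Nat.add_sub_cancel]
    have : (m + 1) ^ 2 = m * (m + 1 + 1) + 1 := by ring
    omega
  have h1 : cf σ d a b d d = ρ (G ρ b d) := by
    have h2 := cf_diag σ (by omega : 1 ≤ d) a b d
    apply σ.injective
    rw [h2, ← hρ]
    have h3 : σ (ρ (G ρ b d)) = (σ ^ d) (G ρ b d) := by
      rw [hρ, ← AlgEquiv.mul_apply, ← pow_succ']
      congr 2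
      omega
    rw [h3]
  have hMG : b * cf σ d a b d d = G ρ b (d + 1) := by rw [h1, G_succ']
  have hρM : ρ (G ρ b (d + 1)) = G ρ b (d + 1) := by
    by_cases hb : b = 0
    · have : G ρ b (d + 1) = 0 := by rw [G_succ', hb, zero_mul]
      rw [this, map_zero]
    · have h2 : b * ρ (G ρ b (d + 1)) = G ρ b (d + 1) * b := by
        rw [← G_succ', G_succ ρ b (d + 1), hσρ, AlgEquiv.one_apply]
      exact mul_left_cancel₀ hb (by rw [h2, mul_comm])
  refine ⟨b * cf σ d a b d d, ?_, ?_⟩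
  · have hR : R (σ ^ d) d a ≠ 0 := R_ne_zero _ d ha
    have h0 := hc.1
    have hc0 : ∀ k, cf σ d a b k 0 = G (σ ^ d) a k := by
      intro k
      induction k with
      | zero => rw [cf, G_zero]
      | succ k ih => rw [cf, ih, G_succ', mul_comm]
    rw [hc0, G_eq_mul_R _ (by omega : 1 ≤ d)] at h0
    have h4 : cf σ d a b d d = - R (σ ^ d) d a := by
      have h2 : a * (R (σ ^ d) d a + cf σ d a b d d) = 0 := by linear_combination h0
      have h3 := (mul_eq_zero.mp h2).resolve_left ha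
      linear_combination h3
    rw [h4]
    field_simp
  · rw [hMG]
    have h5 : (σ ^ d) ^ (d - 1) = ρ ^ d := by
      rw [hρ, ← pow_mul, ← pow_mul, mul_comm]
    rw [h5]
    have h6 : ∀ k, (ρ ^ k) (G ρ b (d + 1)) = G ρ b (d + 1) := by
      intro k
      induction k with
      | zero => simp
      | succ k ih => rw [pow_succ, AlgEquiv.mul_apply, hρM, ih]
    exact h6 d

/-- Injectivity of the Frobenius orbit in terms of the order of `q` modulo `d`. -/
lemma inj_iff (φ : K ≃ₐ[F] K) {d q t : ℕ} (hdp : d.Prime) (hqd : ¬ d ∣ q) {M : K}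
    (hM : IsPrimitiveRoot M d) (ht : Nat.Coprime (d - 1) t)
    (hφ : ∀ i, (φ ^ i) M = M ^ (q ^ (t * i))) :
    Set.InjOn (fun i => (φ ^ i) M) (Set.Iio (d - 1)) ↔ orderOf (q : ZMod d) = d - 1 := by
  haveI : Fact d.Prime := ⟨hdp⟩
  have hq0 : (q : ZMod d) ≠ 0 := by
    rw [Ne, ZMod.natCast_eq_zero_iff]; exact hqd
  have hdvd : orderOf (q : ZMod d) ∣ d - 1 := ZMod.orderOf_dvd_card_sub_one hq0
  have hd2 := hdp.two_le
  have hle : orderOf (q : ZMod d) ≤ d - 1 := Nat.le_of_dvd (by omega) hdvd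
  have hopos : 0 < orderOf (q : ZMod d) := Nat.pos_of_dvd_of_pos hdvd (by omega)
  have hMx : ∀ x y : ℕ, M ^ x = M ^ y ↔ (x : ZMod d) = y := by
    intro x y
    have e : ∀ z : ℕ, M ^ z = M ^ (z % d) := by
      intro z
      rw [hM.eq_orderOf, pow_mod_orderOf]
    rw [e x, e y, ZMod.natCast_eq_natCast_iff]
    constructor
    · intro h
      exact hM.pow_inj (Nat.mod_lt _ (by omega)) (Nat.mod_lt _ (by omega)) h
    · intro h
      rw [show x % d = y % d from h]
  have hkey : ∀ i j, (φ ^ i) M = (φ ^ j) M ↔ ((q : ZMod d) ^ t) ^ i = ((q : ZMod d) ^ t) ^ j := by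
    intro i j
    rw [hφ, hφ, hMx, Nat.cast_pow, Nat.cast_pow, pow_mul, pow_mul]
  have hc0 : (q : ZMod d) ^ t ≠ 0 := pow_ne_zero _ hq0
  constructor
  · intro hinj
    by_contra hne
    have hlt : orderOf (q : ZMod d) < d - 1 := lt_of_le_of_ne hle hne
    have h1 : (φ ^ (orderOf (q : ZMod d))) M = (φ ^ 0) M := by
      rw [hkey, ← pow_mul, mul_comm, pow_mul, pow_orderOf_eq_one, one_pow, pow_zero]
    have h2 := hinj (Set.mem_Iio.mpr hlt) (Set.mem_Iio.mpr (by omega)) h1
    omega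
  · intro ho i hi j hj hij
    have hoc : orderOf ((q : ZMod d) ^ t) = d - 1 := by
      rw [Nat.Coprime.orderOf_pow (by rw [ho]; exact ht), ho]
    have h1 := (hkey i j).mp hij
    rw [Set.mem_Iio] at hi hj
    rcases Nat.lt_trichotomy i j with h | h | h
    · exfalso
      have h2 : ((q : ZMod d) ^ t) ^ (j - i) = 1 := by
        have h3 : ((q : ZMod d) ^ t) ^ i * ((q : ZMod d) ^ t) ^ (j - i) =
            ((q : ZMod d) ^ t) ^ i * 1 := by
          rw [← pow_add, mul_one, Nat.add_sub_cancel' h.le, h1]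
        exact mul_left_cancel₀ (pow_ne_zero _ hc0) h3
      have h4 := Nat.le_of_dvd (by omega) (orderOf_dvd_of_pow_eq_one h2)
      omega
    · exact h
    · exfalso
      have h2 : ((q : ZMod d) ^ t) ^ (i - j) = 1 := by
        have h3 : ((q : ZMod d) ^ t) ^ j * ((q : ZMod d) ^ t) ^ (i - j) =
            ((q : ZMod d) ^ t) ^ j * 1 := by
          rw [← pow_add, mul_one, Nat.add_sub_cancel' h.le, h1]
        exact mul_left_cancel₀ (pow_ne_zero _ hc0) h3
      have h4 := Nat.le_of_dvd (by omega) (orderOf_dvd_of_pow_eq_one h2)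
      omega

end Pool.Agent.K3h23.Tri
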