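import Pool.Agent.K3h23.Tri.Series

set_option autoImplicit false

namespace Pool.Agent.K3h23.Tri

open Finset Module Polynomial

variable {F K : Type*} [Field F] [Field K] [Algebra F K]

/-- `∏_{i=0}^{d-2} (X - φ^i(M))`. -/
noncomputable def Q (φ : K ≃ₐ[F] K) (d : ℕ) (M : K) : K[X] :=
  ∏ i ∈ range (d - 1), (X - C ((φ ^ i) M))

lemma reflect_prod (x : ℕ → K) (s : Finset ℕ) :
    reflect s.card (∏ i ∈ s, (X - C (x i))) = ∏ i ∈ s, (1 - C (x i) * X) := by
  classical
  induction s using Finset.induction_on with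
  | empty => simp
  | insert i s hi ih =>
    rw [prod_insert hi, prod_insert hi, card_insert_of_notMem hi, add_comm,
      reflect_mul _ _ (natDegree_X_sub_C_le _), ih, reflect_sub, reflect_one_X, reflect_C, pow_one]
    refine (natDegree_prod_le _ _).trans ?_
    calc _ ≤ ∑ i ∈ s, 1 := sum_le_sum (fun i _ => natDegree_X_sub_C_le _)
      _ = s.card := by simp

lemma natDegree_Q_le (φ : K ≃ₐ[F] K) (d : ℕ) (M : K) : (Q φ d M).natDegree ≤ d - 1 := by
  refine (natDegree_prod_le _ _).trans ?_
  calc _ ≤ ∑ i ∈ range (d - 1), 1 := sum_le_sum (fun i _ => natDegree_X_sub_C_le _)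
    _ = d - 1 := by simp

lemma P_iff_Q (φ : K ≃ₐ[F] K) {d : ℕ} (hd : 2 ≤ d) (M : K) :
    P φ d M * (1 - X) = 1 - X ^ d ↔ Q φ d M * (X - 1) = X ^ d - 1 := by
  have h1 : reflect d (Q φ d M * (X - 1)) = P φ d M * (1 - X) := by
    have h2 : d = (d - 1) + 1 := by omega
    conv_lhs => rw [h2]
    rw [reflect_mul _ _ (by rw [← h2]; exact natDegree_Q_le φ d M) (by
      rw [← C_1]; exact natDegree_X_sub_C_le _)]
    congr 1
    · rw [← h2]
      have := reflect_prod (fun i => (φ ^ i) M) (range (d - 1))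
      rw [card_range] at this
      exact this
    · rw [reflect_sub, reflect_one_X, reflect_one, pow_one]
  have h3 : reflect d (X ^ d - 1 : K[X]) = 1 - X ^ d := by
    rw [reflect_sub, reflect_monomial, reflect_one, revAt_le le_rfl, Nat.sub_self, pow_zero]
  rw [← h1, ← h3]
  constructor
  · intro h
    have := congrArg (reflect d) h
    rwa [reflect_reflect, reflect_reflect] at this
  · intro h
    rw [h]

/-- Under the product identity the `φ^i(M)` are roots of unity. -/
lemma root_of_Q (φ : K ≃ₐ[F] K) {d : ℕ} {M : K}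
    (h : Q φ d M * (X - 1) = X ^ d - 1) (i : ℕ) (hi : i < d - 1) : ((φ ^ i) M) ^ d = 1 := by
  have h1 := congrArg (eval ((φ ^ i) M)) h
  have h2 : eval ((φ ^ i) M) (Q φ d M) = 0 := by
    rw [Q, eval_prod]
    apply prod_eq_zero (mem_range.mpr hi)
    simp
  rw [eval_mul, h2, zero_mul, eval_sub, eval_pow, eval_X, eval_one] at h1
  linear_combination -h1

lemma exists_of_root (φ : K ≃ₐ[F] K) {d : ℕ} {M : K}
    (h : Q φ d M * (X - 1) = X ^ d - 1) (y : K) (hy : y ^ d = 1) (hy1 : y ≠ 1) :
    ∃ i < d - 1, y = (φ ^ i) M := by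
  have h1 := congrArg (eval y) h
  simp only [eval_mul, eval_sub, eval_X, eval_one, eval_pow, hy, sub_self] at h1
  have h2 : eval y (Q φ d M) = 0 := (mul_eq_zero.mp h1).resolve_right (sub_ne_zero.mpr hy1)
  rw [Q, eval_prod, prod_eq_zero_iff] at h2
  obtain ⟨i, hi, h3⟩ := h2
  refine ⟨i, mem_range.mp hi, ?_⟩
  rw [eval_sub, eval_X, eval_C] at h3
  linear_combination h3

/-- If `p ∣ d` then `M = 1`. -/
lemma M_eq_one (φ : K ≃ₐ[F] K) {d : ℕ} {M : K}
    (h : Q φ d M * (X - 1) = X ^ d - 1) (hd0 : (d : K) = 0) : M = 1 := by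
  have h1 := congrArg (fun f => eval 1 (derivative f)) h
  simp [derivative_mul, derivative_X_pow] at h1
  rw [hd0] at h1
  rw [Q, eval_prod, prod_eq_zero_iff] at h1
  obtain ⟨i, hi, h3⟩ := h1
  rw [eval_sub, eval_X, eval_C] at h3
  have h4 : (φ ^ i) M = 1 := by linear_combination -h3
  have h5 : (φ ^ i) M = (φ ^ i) 1 := by rw [h4, map_one]
  exact (φ ^ i).injective h5

lemma Q_one (φ : K ≃ₐ[F] K) {d : ℕ} (hd : 1 ≤ d) : Q φ d 1 * (X - 1) = (X - 1) ^ d := by
  rw [Q, prod_congr rfl (g := fun _ => (X - 1 : K[X])) (fun i _ => by simp), prod_const,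
    card_range, ← pow_succ, Nat.sub_add_cancel hd]

/-- If `(X-1)^d = X^d - 1` then `d` is a power of the characteristic. -/
lemma pow_of_X_sub_one (p : ℕ) [Fact p.Prime] [CharP K p] {d : ℕ} (hd : 1 ≤ d)
    (h : (X - 1 : K[X]) ^ d = X ^ d - 1) : ∃ k, d = p ^ k := by
  obtain ⟨k, m, hm, rfl⟩ := Nat.exists_eq_pow_mul_and_not_dvd (n := d) (by omega) p
    (Nat.Prime.ne_one Fact.out)
  refine ⟨k, ?_⟩
  have h1 : (X - 1 : K[X]) ^ (p ^ k * m) = expand K (p ^ k) ((X - 1) ^ m) := by
    rw [pow_mul, sub_pow_char_pow, one_pow, map_pow, map_sub, expand_X, map_one]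
  have h2 : (X ^ (p ^ k * m) - 1 : K[X]) = expand K (p ^ k) (X ^ m - 1) := by
    rw [map_sub, map_pow, expand_X, map_one, pow_mul]
  rw [h1, h2] at h
  have hpk : 0 < p ^ k := pow_pos (Nat.Prime.pos Fact.out) _
  have h3 := expand_injective hpk h
  have h4 := congrArg (fun f => eval 1 (derivative f)) h3
  simp only [derivative_pow, derivative_sub, derivative_X, derivative_one, sub_zero, mul_one,
    eval_mul, eval_pow, eval_sub, eval_X, eval_one, sub_self, one_pow, eval_natCast, eval_C]
    at h4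
  have hmK : (m : K) ≠ 0 := by
    rw [Ne, CharP.cast_eq_zero_iff K p m]; exact hm
  by_cases hm1 : m = 1
  · rw [hm1, mul_one]
  · exfalso
    have hm0 : m ≠ 0 := by rintro rfl; simp at hm
    rw [zero_pow (by omega), mul_zero] at h4
    exact hmK h4.symm

/-- The classification of `M`. -/
theorem classify (p : ℕ) [Fact p.Prime] [CharP K p] (φ : K ≃ₐ[F] K) {d : ℕ} (hd : 2 ≤ d) {M : K}
    (h : Q φ d M * (X - 1) = X ^ d - 1) :
    (M = 1 ∧ ∃ k, d = p ^ k) ∨
      (d.Prime ∧ IsPrimitiveRoot M d ∧ Set.InjOn (fun i => (φ ^ i) M) (Set.Iio (d - 1))) := by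
  by_cases hd0 : (d : K) = 0
  · left
    have h1 := M_eq_one φ h hd0
    subst h1
    refine ⟨rfl, ?_⟩
    rw [Q_one φ (by omega)] at h
    exact pow_of_X_sub_one p (by omega) h
  · right
    haveI : NeZero (d : K) := ⟨hd0⟩
    -- the polynomial is separable
    have hsep : (X ^ d - 1 : K[X]).Separable := by
      have := separable_X_pow_sub_C (1 : K) hd0 one_ne_zero
      rwa [C_1] at this
    have hsepQ : (Q φ d M).Separable := by
      rw [← h] at hsep
      exact hsep.of_mul_left
    have hinj : Set.InjOn (fun i => (φ ^ i) M) (Set.Iio (d - 1)) := by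
      have h1 := separable_prod_X_sub_C_iff'.mp hsepQ
      intro i hi j hj hij
      exact h1 i (mem_range.mpr hi) j (mem_range.mpr hj) hij
    have hM : M ≠ 1 := by
      rintro rfl
      have h1 := congrArg (fun f => eval 1 (derivative f)) h
      rw [Q_one φ (by omega)] at h1
      simp only [derivative_pow, derivative_sub, derivative_X, derivative_one, sub_zero, mul_one,
        eval_mul, eval_pow, eval_sub, eval_X, eval_one, sub_self, one_pow, eval_C] at h1
      rw [zero_pow (by omega), mul_zero] at h1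
      exact hd0 h1.symm
    -- orders
    have hord : ∀ i, orderOf ((φ ^ i) M) = orderOf M := by
      intro i
      exact orderOf_injective ((φ ^ i : K ≃ₐ[F] K) : K →* K) (φ ^ i).injective M
    have hMd : M ^ d = 1 := by
      have := root_of_Q φ h 0 (by omega)
      simpa using this
    have hdvd : orderOf M ∣ d := orderOf_dvd_of_pow_eq_one hMd
    have hopos : 0 < orderOf M := Nat.pos_of_dvd_of_pos hdvd (by omega)
    have hle : d ≤ orderOf M := by
      classical
      have h1 : insert 1 ((range (d - 1)).image (fun i => (φ ^ i) M)) ⊆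
          nthRootsFinset (orderOf M) (1 : K) := by
        intro y hy
        rw [mem_insert, mem_image] at hy
        rw [mem_nthRootsFinset hopos]
        rcases hy with rfl | ⟨i, -, rfl⟩
        · exact one_pow _
        · rw [← hord i, pow_orderOf_eq_one]
      have h2 : (1 : K) ∉ (range (d - 1)).image (fun i => (φ ^ i) M) := by
        rw [mem_image]
        rintro ⟨i, -, hi⟩
        apply hM
        apply (φ ^ i).injective
        rw [map_one]
        exact hi
      have h3 := card_le_card h1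
      rw [card_insert_of_notMem h2, card_image_of_injOn (by
        intro i hi j hj hij
        rw [coe_range] at hi hj
        exact hinj hi hj hij), card_range] at h3
      have h4 : (nthRootsFinset (orderOf M) (1 : K)).card ≤ orderOf M := by
        rw [nthRootsFinset_def]
        exact (Multiset.toFinset_card_le _).trans (card_nthRoots _ _)
      omega
    have ho : orderOf M = d := le_antisymm (Nat.le_of_dvd (by omega) hdvd) hle
    have hprim : IsPrimitiveRoot M d := by
      have := IsPrimitiveRoot.orderOf M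
      rwa [ho] at this
    refine ⟨?_, hprim, hinj⟩
    by_contra hnp
    have hmin := Nat.minFac_prime (n := d) (by omega)
    have hmd := Nat.minFac_dvd d
    have hlt : Nat.minFac d < d := lt_of_le_of_ne (Nat.minFac_le (by omega))
      (fun h1 => hnp (h1 ▸ hmin))
    obtain ⟨e, he⟩ := hmd
    have hy1 : M ^ Nat.minFac d ≠ 1 := by
      intro h1
      have := Nat.le_of_dvd hmin.pos (hprim.dvd_of_pow_eq_one _ h1)
      omega
    have hyd : (M ^ Nat.minFac d) ^ d = 1 := by rw [← pow_mul, mul_comm, pow_mul, hMd, one_pow]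
    obtain ⟨i, -, hi⟩ := exists_of_root φ h _ hyd hy1
    have hoy : orderOf (M ^ Nat.minFac d) = d := by rw [hi, hord, ho]
    have he0 : (M ^ Nat.minFac d) ^ e = 1 := by rw [← pow_mul, ← he, hMd]
    have h5 := orderOf_dvd_of_pow_eq_one he0
    rw [hoy] at h5
    have hepos : 0 < e := by
      rcases Nat.eq_zero_or_pos e with h6 | h6
      · rw [h6, mul_zero] at he; omega
      · exact h6
    have h6 := Nat.le_of_dvd hepos h5
    have h7 : 2 * e ≤ Nat.minFac d * e := Nat.mul_le_mul_right e hmin.two_le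
    omega

/-- Sufficiency, first case. -/
theorem Q_of_pow (p : ℕ) [Fact p.Prime] [CharP K p] (φ : K ≃ₐ[F] K) {d : ℕ}
    (h : ∃ k, d = p ^ k) : Q φ d 1 * (X - 1) = X ^ d - 1 := by
  obtain ⟨k, rfl⟩ := h
  rw [Q_one φ (Nat.one_le_iff_ne_zero.mpr (pow_ne_zero _ (Nat.Prime.ne_zero Fact.out))),
    sub_pow_char_pow, one_pow]

/-- Sufficiency, second case. -/
theorem Q_of_inj (φ : K ≃ₐ[F] K) {d : ℕ} (hd : 2 ≤ d) {M : K} (hM : IsPrimitiveRoot M d)
    (hinj : Set.InjOn (fun i => (φ ^ i) M) (Set.Iio (d - 1))) :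
    Q φ d M * (X - 1) = X ^ d - 1 := by
  classical
  have h2 : (1 : K) ∉ (range (d - 1)).image (fun i => (φ ^ i) M) := by
    rw [mem_image]
    rintro ⟨i, -, hi⟩
    apply hM.ne_one (by omega)
    apply (φ ^ i).injective
    rw [map_one]
    exact hi
  have hinj' : Set.InjOn (fun i => (φ ^ i) M) (range (d - 1) : Set ℕ) := by
    rw [coe_range]; exact hinj
  have h1 : insert 1 ((range (d - 1)).image (fun i => (φ ^ i) M)) = nthRootsFinset d (1 : K) := by
    apply eq_of_subset_of_card_le
    · intro y hy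
      rw [mem_insert, mem_image] at hy
      rw [mem_nthRootsFinset (by omega)]
      rcases hy with rfl | ⟨i, -, rfl⟩
      · exact one_pow _
      · rw [← map_pow, hM.pow_eq_one, map_one]
    · rw [card_insert_of_notMem h2, card_image_of_injOn hinj', card_range,
        hM.card_nthRootsFinset]
      omega
  rw [X_pow_sub_one_eq_prod (by omega) hM, ← h1, prod_insert h2, prod_image hinj', Q, C_1]
  ring

end Pool.Agent.K3h23.Tri
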