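import Pool.Agent.K3h23.Tri.Telescope

set_option autoImplicit false

namespace Pool.Agent.K3h23.Tri

open Finset Module PowerSeries

variable {F K : Type*} [Field F] [Field K] [Algebra F K]

/-- The geometric series `∑ x^n z^n`. -/
noncomputable def geo (x : K) : K⟦X⟧ := PowerSeries.mk (fun n => x ^ n)

lemma one_sub_mul_geo (x : K) : (1 - PowerSeries.C x * PowerSeries.X) * geo x = 1 := by
  ext n
  rw [sub_mul, one_mul, mul_assoc, map_sub]
  cases n with
  | zero => simp [geo]
  | succ n =>
    rw [PowerSeries.coeff_C_mul, PowerSeries.coeff_succ_X_mul, geo, PowerSeries.coeff_mk,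
      PowerSeries.coeff_mk, PowerSeries.coeff_one, if_neg (by omega)]
    ring

lemma coeff_succ_geo_mul (x : K) (f : K⟦X⟧) (n : ℕ) :
    PowerSeries.coeff (n + 1) (geo x * f) =
      PowerSeries.coeff (n + 1) f + x * PowerSeries.coeff n (geo x * f) := by
  have h : f = geo x * f - PowerSeries.C x * (PowerSeries.X * (geo x * f)) := by
    have := one_sub_mul_geo x
    linear_combination (-f) * this
  have h2 := congrArg (PowerSeries.coeff (n + 1)) h
  rw [map_sub, PowerSeries.coeff_C_mul, PowerSeries.coeff_succ_X_mul] at h2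
  rw [h2]; ring

lemma map_geo (φ : K ≃ₐ[F] K) (x : K) :
    PowerSeries.map (φ : K →+* K) (geo x) = geo (φ x) := by
  ext n
  simp [geo]

/-- `∏_{i=j}^{k-1} (1 - φ^i(M) z)⁻¹`. -/
noncomputable def T (φ : K ≃ₐ[F] K) (M : K) (j k : ℕ) : K⟦X⟧ := ∏ i ∈ Ico j k, geo ((φ ^ i) M)

lemma map_T (φ : K ≃ₐ[F] K) (M : K) (j k : ℕ) :
    PowerSeries.map (φ : K →+* K) (T φ M j k) = T φ M (j + 1) (k + 1) := by
  rw [T, T, map_prod, ← prod_Ico_add']
  apply prod_congr rfl
  intro i _
  rw [map_geo, pow_succ', AlgEquiv.mul_apply]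

lemma coeff_zero_T (φ : K ≃ₐ[F] K) (M : K) (j k : ℕ) :
    PowerSeries.coeff 0 (T φ M j k) = 1 := by
  rw [T, PowerSeries.coeff_zero_eq_constantCoeff_apply, map_prod]
  apply prod_eq_one
  intro i _
  simp [geo]

lemma W_eq (φ : K ≃ₐ[F] K) (M : K) :
    ∀ k j : ℕ, W φ M k (j + 1) = PowerSeries.coeff (j + 1) (T φ M j k) := by
  intro k
  induction k with
  | zero =>
    intro j
    rw [W, T, Ico_eq_empty (by omega), prod_empty, PowerSeries.coeff_one, if_neg (by omega)]
  | succ k ih =>
    intro j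
    have h1 : φ (W φ M k (j + 1)) = PowerSeries.coeff (j + 1) (T φ M (j + 1) (k + 1)) := by
      rw [ih, ← map_T, PowerSeries.coeff_map]
      rfl
    have h2 : φ (W φ M k j) = PowerSeries.coeff j (T φ M j (k + 1)) := by
      cases j with
      | zero => rw [W_zero, coeff_zero_T, map_one]
      | succ j =>
        rw [ih, ← map_T, PowerSeries.coeff_map]
        rfl
    rw [W, h1, h2]
    by_cases hj : j < k + 1
    · have h3 : T φ M j (k + 1) = geo ((φ ^ j) M) * T φ M (j + 1) (k + 1) := by
        rw [T, T, prod_eq_prod_Ico_succ_bot hj]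
      rw [h3, coeff_succ_geo_mul]
    · rw [T, T, Ico_eq_empty (by omega), Ico_eq_empty (by omega), prod_empty,
        PowerSeries.coeff_one, if_neg (by omega), PowerSeries.coeff_one, if_neg (by omega)]
      ring

lemma W_zero_of_lt (φ : K ≃ₐ[F] K) (M : K) : ∀ k j : ℕ, k < j → W φ M k j = 0 := by
  intro k
  induction k with
  | zero =>
    intro j hj
    obtain ⟨j, rfl⟩ := Nat.exists_eq_succ_of_ne_zero (show j ≠ 0 by omega)
    rw [Nat.succ_eq_add_one, W]
  | succ k ih =>
    intro j hj
    obtain ⟨j, rfl⟩ := Nat.exists_eq_succ_of_ne_zero (show j ≠ 0 by omega)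
    rw [Nat.succ_eq_add_one, W, ih (j + 1) (by omega), ih j (by omega), map_zero]
    ring

lemma W_diag (φ : K ≃ₐ[F] K) (M : K) (k : ℕ) : W φ M (k + 1) (k + 1) = ((φ ^ k) M) ^ (k + 1) := by
  induction k with
  | zero => simp [W]
  | succ k ih =>
    rw [W, W_zero_of_lt φ M (k + 1) (k + 1 + 1) (by omega), ih, map_zero, zero_add, map_pow,
      pow_succ' φ k, AlgEquiv.mul_apply]
    ring

/-- `∏_{i=0}^{d-2} (1 - φ^i(M) z)`. -/
noncomputable def P (φ : K ≃ₐ[F] K) (d : ℕ) (M : K) : Polynomial K :=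
  ∏ i ∈ range (d - 1), (1 - Polynomial.C ((φ ^ i) M) * Polynomial.X)

lemma coe_lin (x : K) : ((1 - Polynomial.C x * Polynomial.X : Polynomial K) : K⟦X⟧) =
    1 - PowerSeries.C x * PowerSeries.X := by
  simp

lemma coe_prod_mul (x : ℕ → K) (s : Finset ℕ) :
    ((∏ i ∈ s, (1 - Polynomial.C (x i) * Polynomial.X) : Polynomial K) : K⟦X⟧) *
      ∏ i ∈ s, geo (x i) = 1 := by
  classical
  induction s using Finset.induction_on with
  | empty => simp
  | insert i s hi ih =>
    rw [prod_insert hi, prod_insert hi, Polynomial.coe_mul, coe_lin]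
    calc _ = ((1 - PowerSeries.C (x i) * PowerSeries.X) * geo (x i)) *
        (((∏ i ∈ s, (1 - Polynomial.C (x i) * Polynomial.X) : Polynomial K) : K⟦X⟧) *
      ∏ i ∈ s, geo (x i)) := by ring
      _ = 1 := by rw [one_sub_mul_geo, ih, one_mul]

lemma natDegree_lin_le (x : K) :
    (1 - Polynomial.C x * Polynomial.X : Polynomial K).natDegree ≤ 1 := by
  compute_degree

lemma natDegree_prod_le' (x : ℕ → K) (s : Finset ℕ) :
    (∏ i ∈ s, (1 - Polynomial.C (x i) * Polynomial.X) : Polynomial K).natDegree ≤ s.card := by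
  refine (Polynomial.natDegree_prod_le _ _).trans ?_
  calc _ ≤ ∑ i ∈ s, 1 := sum_le_sum (fun i _ => natDegree_lin_le _)
    _ = s.card := by simp

lemma coeff_aux {E H : K⟦X⟧} {j : ℕ} (hE0 : PowerSeries.coeff 0 E = 1)
    (hE : ∀ i, j ≤ i → PowerSeries.coeff i E = 0)
    (hH : ∀ l, 2 ≤ l → l ≤ j → PowerSeries.coeff l H = 0) :
    PowerSeries.coeff (j + 1) (E * H) = PowerSeries.coeff (j + 1) H := by
  rw [PowerSeries.coeff_mul, sum_eq_single (0, j + 1)]
  · rw [hE0, one_mul]
  · rintro ⟨i, l⟩ hil hne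
    rw [Finset.HasAntidiagonal.mem_antidiagonal] at hil
    simp only at hil ⊢
    by_cases hi : j ≤ i
    · rw [hE i hi, zero_mul]
    · have hi0 : i ≠ 0 := by
        rintro rfl
        apply hne
        rw [zero_add] at hil
        rw [hil]
      rw [hH l (by omega) (by omega), mul_zero]
  · intro h
    exact absurd (by rw [Finset.HasAntidiagonal.mem_antidiagonal]; simp) h


theorem W_cond_iff (φ : K ≃ₐ[F] K) {d : ℕ} (hd : 2 ≤ d) {M : K} (hM : (φ ^ (d - 1)) M = M) :
    (W φ M d 1 = M - 1 ∧ ∀ j, 2 ≤ j → j < d → W φ M d j = 0) ↔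
      P φ d M * (1 - Polynomial.X) = 1 - Polynomial.X ^ d := by
  set x : ℕ → K := fun i => (φ ^ i) M with hx
  set H : K⟦X⟧ := ∏ i ∈ range (d - 1), geo (x i) with hH
  have hPH : ((P φ d M : Polynomial K) : K⟦X⟧) * H = 1 := coe_prod_mul x (range (d - 1))
  have hxd : x (d - 1) = x 0 := by simp only [hx]; rw [hM]; simp
  have hx0 : x 0 = M := by simp [hx]
  have hH0 : PowerSeries.coeff 0 H = 1 := by
    have h1 : H = T φ M 0 (d - 1) := by rw [hH, T, range_eq_Ico]
    rw [h1, coeff_zero_T]
  have hT0 : T φ M 0 d = geo M * H := by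
    have h1 : d = (d - 1) + 1 := by omega
    rw [T]
    conv_lhs => rw [h1]
    rw [prod_Ico_succ_top (by omega), hH, range_eq_Ico, mul_comm]
    congr 1
    change geo (x (d - 1)) = _
    rw [hxd, hx0]
  have hW1 : W φ M d 1 = PowerSeries.coeff 1 H + M := by
    rw [show (1 : ℕ) = 0 + 1 from rfl, W_eq, hT0, coeff_succ_geo_mul,
      ← hT0, coeff_zero_T, mul_one]
  -- the other ones
  let E : ℕ → Polynomial K := fun j => ∏ i ∈ Ico 1 j, (1 - Polynomial.C (x i) * Polynomial.X)
  have hT : ∀ j, 1 ≤ j → j ≤ d - 1 → T φ M j d = (E j : K⟦X⟧) * H := by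
    intro j h1 h2
    have h3 : d = (d - 1) + 1 := by omega
    have h4 : H = geo (x 0) * ((∏ i ∈ Ico 1 j, geo (x i)) * ∏ i ∈ Ico j (d - 1), geo (x i)) := by
      rw [hH, range_eq_Ico, prod_eq_prod_Ico_succ_bot (by omega), zero_add,
        prod_Ico_consecutive _ h1 h2]
    have h5 : T φ M j d = (∏ i ∈ Ico j (d - 1), geo (x i)) * geo (x 0) := by
      rw [T]
      conv_lhs => rw [h3]
      rw [prod_Ico_succ_top (by omega), ← hxd]
    rw [h5, h4]
    have h6 := coe_prod_mul x (Ico 1 j)
    linear_combination (-(geo (x 0) * ∏ i ∈ Ico j (d - 1), geo (x i))) * h6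
  have hE0 : ∀ j, PowerSeries.coeff 0 (E j : K⟦X⟧) = 1 := by
    intro j
    rw [Polynomial.coeff_coe, Polynomial.coeff_zero_eq_eval_zero]
    simp only [E]
    rw [Polynomial.eval_prod]
    apply prod_eq_one
    intro i _
    simp
  have hEd : ∀ j, 1 ≤ j → ∀ i, j ≤ i → PowerSeries.coeff i (E j : K⟦X⟧) = 0 := by
    intro j hj i hi
    rw [Polynomial.coeff_coe]
    apply Polynomial.coeff_eq_zero_of_natDegree_lt
    have := natDegree_prod_le' x (Ico 1 j)
    rw [Nat.card_Ico] at this
    change (E j).natDegree ≤ _ at this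
    omega
  have hWj : ∀ j, 1 ≤ j → j ≤ d - 1 → (∀ l, 2 ≤ l → l ≤ j → PowerSeries.coeff l H = 0) →
      W φ M d (j + 1) = PowerSeries.coeff (j + 1) H := by
    intro j h1 h2 h3
    rw [W_eq, hT j h1 h2, coeff_aux (hE0 j) (hEd j h1) h3]
  have hkey : (W φ M d 1 = M - 1 ∧ ∀ j, 2 ≤ j → j < d → W φ M d j = 0) ↔
      (PowerSeries.coeff 1 H = -1 ∧ ∀ l, 2 ≤ l → l < d → PowerSeries.coeff l H = 0) := by
    constructor
    · rintro ⟨h1, h2⟩
      refine ⟨by rw [hW1] at h1; linear_combination h1, ?_⟩
      intro l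
      induction l using Nat.strong_induction_on with
      | _ l ih =>
        intro hl1 hl2
        obtain ⟨j, rfl⟩ : ∃ j, l = j + 1 := ⟨l - 1, by omega⟩
        rw [← hWj j (by omega) (by omega) (fun l h3 h4 => ih l (by omega) h3 (by omega))]
        exact h2 _ hl1 hl2
    · rintro ⟨h1, h2⟩
      refine ⟨by rw [hW1, h1]; ring, ?_⟩
      intro l hl1 hl2
      obtain ⟨j, rfl⟩ : ∃ j, l = j + 1 := ⟨l - 1, by omega⟩
      rw [hWj j (by omega) (by omega) (fun l h3 h4 => h2 l h3 (by omega))]
      exact h2 _ hl1 hl2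
  rw [hkey]
  constructor
  · rintro ⟨h1, h2⟩
    let Z : K⟦X⟧ := PowerSeries.mk (fun n => PowerSeries.coeff (n + d) H)
    have h3 : H = (1 - PowerSeries.X) + PowerSeries.X ^ d * Z := by
      ext n
      rw [map_add, PowerSeries.coeff_X_pow_mul', map_sub, PowerSeries.coeff_one,
        PowerSeries.coeff_X]
      by_cases hn : d ≤ n
      · rw [if_pos hn, if_neg (by omega), if_neg (by omega), PowerSeries.coeff_mk,
          Nat.sub_add_cancel hn]
        ring
      · rw [if_neg hn]
        rcases Nat.lt_or_ge n 2 with h | h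
        · interval_cases n
          · rw [hH0]; simp
          · rw [h1]; simp
        · rw [h2 n h (by omega), if_neg (by omega), if_neg (by omega)]
          ring
    have h4 : ((P φ d M * (1 - Polynomial.X) : Polynomial K) : K⟦X⟧) =
        1 - PowerSeries.X ^ d * (((P φ d M : Polynomial K) : K⟦X⟧) * Z) := by
      rw [Polynomial.coe_mul, Polynomial.coe_sub, Polynomial.coe_one, Polynomial.coe_X]
      have h5 := hPH
      rw [h3] at h5
      linear_combination h5
    have h5 : (P φ d M * (1 - Polynomial.X)).natDegree ≤ d := by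
      refine Polynomial.natDegree_mul_le.trans ?_
      have h6 := natDegree_prod_le' x (range (d - 1))
      rw [card_range] at h6
      have h7 : (1 - Polynomial.X : Polynomial K).natDegree ≤ 1 := by compute_degree
      change (P φ d M).natDegree ≤ _ at h6
      omega
    have h6 : P φ d M * (1 - Polynomial.X) =
        1 + Polynomial.C ((P φ d M * (1 - Polynomial.X)).coeff d) * Polynomial.X ^ d := by
      ext n
      rw [Polynomial.coeff_add, Polynomial.coeff_C_mul_X_pow, Polynomial.coeff_one]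
      rcases Nat.lt_trichotomy n d with h | h | h
      · have h7 := congrArg (PowerSeries.coeff n) h4
        rw [Polynomial.coeff_coe, map_sub, PowerSeries.coeff_X_pow_mul', if_neg (by omega),
          PowerSeries.coeff_one] at h7
        rw [h7, if_neg (show ¬ n = d by omega)]
        ring
      · subst h
        rw [if_neg (by omega), if_pos rfl, zero_add]
      · rw [Polynomial.coeff_eq_zero_of_natDegree_lt (by omega), if_neg (by omega),
          if_neg (by omega), zero_add]
    have h7 := congrArg (Polynomial.eval 1) h6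
    simp only [Polynomial.eval_mul, Polynomial.eval_sub, Polynomial.eval_one, Polynomial.eval_X,
      sub_self, mul_zero, Polynomial.eval_add, Polynomial.eval_C, Polynomial.eval_pow, one_pow,
      mul_one] at h7
    have h8 : (P φ d M * (1 - Polynomial.X)).coeff d = -1 := by linear_combination -h7
    rw [h6, h8]
    simp
    ring
  · intro h
    have h3 : (1 - PowerSeries.X : K⟦X⟧) = H - PowerSeries.X ^ d * H := by
      have h4 := congrArg (fun f : Polynomial K => (f : K⟦X⟧)) h
      simp only [Polynomial.coe_mul, Polynomial.coe_sub, Polynomial.coe_one, Polynomial.coe_X,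
        Polynomial.coe_pow] at h4
      linear_combination H * h4 - (1 - PowerSeries.X) * hPH
    have h4 : ∀ l, l < d → PowerSeries.coeff l H = PowerSeries.coeff l (1 - PowerSeries.X) := by
      intro l hl
      rw [h3, map_sub, PowerSeries.coeff_X_pow_mul', if_neg (by omega), sub_zero]
    refine ⟨?_, ?_⟩
    · rw [h4 1 (by omega), map_sub, PowerSeries.coeff_one, PowerSeries.coeff_X]
      simp
    · intro l hl1 hl2
      rw [h4 l hl2, map_sub, PowerSeries.coeff_one, PowerSeries.coeff_X, if_neg (by omega),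
        if_neg (by omega), sub_zero]

end Pool.Agent.K3h23.Tri
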