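import Pool.Agent.K3h23.Tri.Coeff

set_option autoImplicit false

namespace Pool.Agent.K3h23.Tri

open Finset Module

variable {F K : Type*} [Field F] [Field K] [Algebra F K]

/-- `a φ(a) ⋯ φ^(m-1)(a)`. -/
noncomputable def G (φ : K ≃ₐ[F] K) (a : K) (m : ℕ) : K := ∏ i ∈ range m, (φ ^ i) a

lemma G_zero (φ : K ≃ₐ[F] K) (a : K) : G φ a 0 = 1 := by simp [G]

lemma G_succ (φ : K ≃ₐ[F] K) (a : K) (m : ℕ) : G φ a (m + 1) = G φ a m * (φ ^ m) a := by
  rw [G, prod_range_succ, G]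

lemma map_G (φ ψ : K ≃ₐ[F] K) (a : K) (m : ℕ) (h : Commute ψ φ) :
    ψ (G φ a m) = G φ (ψ a) m := by
  rw [G, map_prod, G]
  apply prod_congr rfl
  intro i _
  have : ψ * φ ^ i = φ ^ i * ψ := h.pow_right i
  rw [← AlgEquiv.mul_apply, this, AlgEquiv.mul_apply]

lemma G_succ' (φ : K ≃ₐ[F] K) (a : K) (m : ℕ) : G φ a (m + 1) = a * φ (G φ a m) := by
  rw [G, prod_range_succ', G, map_prod, mul_comm]
  congr 1
  apply prod_congr rfl
  intro i _
  rw [pow_succ', AlgEquiv.mul_apply]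

lemma G_ne_zero (φ : K ≃ₐ[F] K) {a : K} (ha : a ≠ 0) (m : ℕ) : G φ a m ≠ 0 := by
  rw [G, prod_ne_zero_iff]
  intro i _
  rw [Ne, map_eq_zero_iff _ (φ ^ i).injective]
  exact ha

lemma G_add (φ : K ≃ₐ[F] K) (a : K) (m k : ℕ) :
    G φ a (m + k) = G φ a m * (φ ^ m) (G φ a k) := by
  rw [G, prod_range_add, G, G, map_prod]
  congr 1
  apply prod_congr rfl
  intro i _
  rw [pow_add, AlgEquiv.mul_apply]

/-- The normalised coefficients. -/
noncomputable def W (φ : K ≃ₐ[F] K) (M : K) : ℕ → ℕ → K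
  | 0, 0 => 1
  | 0, _ + 1 => 0
  | _ + 1, 0 => 1
  | k + 1, j + 1 => φ (W φ M k (j + 1)) + (φ ^ j) M * φ (W φ M k j)

lemma W_zero (φ : K ≃ₐ[F] K) (M : K) (k : ℕ) : W φ M k 0 = 1 := by
  cases k <;> rw [W]

/-- `∏_{i=1}^{d-1} φ^i(a)`. -/
noncomputable def R (φ : K ≃ₐ[F] K) (d : ℕ) (a : K) : K := ∏ i ∈ range (d - 1), (φ ^ (i + 1)) a

lemma R_ne_zero (φ : K ≃ₐ[F] K) (d : ℕ) {a : K} (ha : a ≠ 0) : R φ d a ≠ 0 := by
  rw [R, prod_ne_zero_iff]
  intro i _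
  rw [Ne, map_eq_zero_iff _ (φ ^ (i + 1)).injective]
  exact ha

lemma G_eq_mul_R (φ : K ≃ₐ[F] K) {d : ℕ} (hd : 1 ≤ d) (a : K) : G φ a d = a * R φ d a := by
  obtain ⟨m, rfl⟩ : ∃ m, d = m + 1 := ⟨d - 1, by omega⟩
  rw [G, prod_range_succ', R, pow_zero, AlgEquiv.one_apply, mul_comm, Nat.add_sub_cancel]

lemma phi_pow (σ : K ≃ₐ[F] K) {d : ℕ} (hσ : σ ^ (d * d) = σ) (j : ℕ) :
    (σ ^ d) ^ (j * d) = σ ^ j := by
  rw [← pow_mul, show d * (j * d) = (d * d) * j by ring, pow_mul, hσ]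

lemma phi_pow_M (φ : K ≃ₐ[F] K) {d : ℕ} (hd : 1 ≤ d) {M : K} (hM : (φ ^ (d - 1)) M = M) (j : ℕ) :
    (φ ^ (j * d)) M = (φ ^ j) M := by
  have h1 : ∀ j : ℕ, (φ ^ ((d - 1) * j)) M = M := by
    intro j
    induction j with
    | zero => simp
    | succ j ih => rw [mul_add, mul_one, pow_add, AlgEquiv.mul_apply, hM, ih]
  have h2 : j * d = j + (d - 1) * j := by
    obtain ⟨m, rfl⟩ : ∃ m, d = m + 1 := ⟨d - 1, by omega⟩
    rw [Nat.add_sub_cancel]; ring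
  rw [h2, pow_add, AlgEquiv.mul_apply, h1]

/-- The closed form of the coefficients. -/
theorem cf_eq (σ : K ≃ₐ[F] K) {d : ℕ} (hd : 1 ≤ d) (hσ : σ ^ (d * d) = σ) {a b M : K}
    (ha : a ≠ 0) (hb : b = -M / R (σ ^ d) d a) (hM : ((σ ^ d) ^ (d - 1)) M = M) :
    ∀ k j : ℕ, cf σ d a b k j =
      (-1) ^ j * (G (σ ^ d) a k / G (σ ^ d) a (j * d)) * W (σ ^ d) M k j := by
  set φ := σ ^ d with hφ
  intro k
  induction k with
  | zero =>
    intro j
    cases j with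
    | zero => simp [cf, W, G_zero]
    | succ j => simp [cf, W]
  | succ k ih =>
    intro j
    cases j with
    | zero =>
      rw [cf, ← hφ, ih 0, W_zero, W_zero, zero_mul, G_zero, G_succ']
      simp
      ring
    | succ j =>
      have g1 : G φ a (j * d) ≠ 0 := G_ne_zero φ ha _
      have g2 : G φ a ((j + 1) * d) ≠ 0 := G_ne_zero φ ha _
      have e1 : φ (G φ a k) = G φ a (k + 1) / a := by
        rw [G_succ']; field_simp
      have e2 : φ (G φ a ((j + 1) * d)) = G φ a ((j + 1) * d) * (σ ^ (j + 1)) a / a := by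
        rw [← phi_pow σ hσ (j + 1), ← hφ, ← G_succ, G_succ']; field_simp
      have e3 : φ (G φ a (j * d)) = G φ a (j * d) * (σ ^ j) a / a := by
        rw [← phi_pow σ hσ j, ← hφ, ← G_succ, G_succ']; field_simp
      have e4 : G φ a ((j + 1) * d) = G φ a (j * d) * (σ ^ j) a * (σ ^ j) (R φ d a) := by
        rw [add_mul, one_mul, G_add, G_eq_mul_R φ hd, map_mul, hφ, phi_pow σ hσ j]
        ring
      have hs1 : (σ ^ (j + 1)) a ≠ 0 := by
        rw [Ne, map_eq_zero_iff _ (σ ^ (j + 1)).injective]; exact ha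
      have hs2 : (σ ^ j) a ≠ 0 := by
        rw [Ne, map_eq_zero_iff _ (σ ^ j).injective]; exact ha
      have hs3 : (σ ^ j) (R φ d a) ≠ 0 := by
        rw [Ne, map_eq_zero_iff _ (σ ^ j).injective]; exact R_ne_zero φ d ha
      have e5 : (σ ^ j) b = -(φ ^ j) M / (σ ^ j) (R φ d a) := by
        rw [hb, map_div₀, map_neg, ← phi_pow_M φ hd hM j, hφ, phi_pow σ hσ j]
      rw [cf, ← hφ, ih (j + 1), ih j, W, map_mul, map_mul, map_mul, map_mul, map_div₀, map_div₀,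
        e1, e2, e3, e5, map_pow, map_neg, map_one, map_pow, map_neg, map_one]
      rw [e4] at g2 ⊢
      field_simp
      ring

end Pool.Agent.K3h23.Tri
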